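import Pool.Agent.NH30.KF.Comb

/-!
# Elimination for grids (helper30)
-/

set_option autoImplicit false

open Function

namespace Pool.Agent.NH30.KF

/-- the point of the projective line with the affine coordinate `x`, or the point at infinity -/
def pt {k : Type*} (b : Bool) (x : k) : Option k := if b then some x else none

theorem elim {Λ : Type} [CommRing Λ] [IsDomain Λ] {n d : ℕ} {κ : Type} [Finite κ]
    (Gp : Polynomial (Polynomial ℤ))
    (F : κ → (Fin n → Fin (d + 1)) → Λ) (ρ : Fin n → Fin n) (I : Finset (Fin n))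
    (h : Fin n → Polynomial ℤ) (L : ℕ)
    (H : ∀ (K : Type) [Field K] (f : Λ →+* K), Function.Injective f →
      ¬ HasGrid K Gp (fun j e => f (F j e)) ρ I h L) :
    ∃ R : Λ, R ≠ 0 ∧ ∀ (k : Type) [Field k] (f : Λ →+* k), f R ≠ 0 →
      ¬ HasGrid k Gp (fun j e => f (F j e)) ρ I h L := by
  classical
  let G := Fin n → Fin (L + 1)
  let MP := MvPolynomial (G × Fin n) Λ
  let nu : (G × Fin n → Bool) → G → Fin n → MP := fun χ a i =>
    if χ (a, i) then MvPolynomial.X (a, i) else 1
  let de : (G × Fin n → Bool) → G → Fin n → MP := fun χ a i => if χ (a, i) then 1 else 0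
  let ev : (G × Fin n → Bool) → G → κ → MP := fun χ a j =>
    ∑ e : Fin n → Fin (d + 1), MvPolynomial.C (F j e) *
      ∏ i, (nu χ a i ^ (e i : ℕ) * de χ a i ^ (d - (e i : ℕ)))
  let link : G → G → Fin n → Prop := fun a a' i =>
    ρ i ≠ i ∧ (∀ j, j ≠ i → a' j = a j) ∧ (a' i : ℕ) = a i + 1
  let S : (G × Fin n → Bool) → Set MP := fun χ =>
    {P | ∃ a j, P = ev χ a j} ∪ {P | ∃ a, ∃ i ∈ I, P = (h i).eval₂ (Int.castRingHom MP) (nu χ a i)} ∪
      {P | ∃ a a' i, link a a' i ∧ χ (a', i) = true ∧ (P = ev2 Gp (nu χ a' i) (nu χ a (ρ i)) ∨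
        P = ev2 Gp (nu χ a (ρ i)) (nu χ a' i))}
  let good : (G × Fin n → Bool) → Prop := fun χ =>
    (∀ a, ∀ i ∈ I, χ (a, i) = true) ∧ ∀ a a' i, link a a' i → χ (a', i) = χ (a, ρ i)
  -- homomorphisms and the forms
  have hev : ∀ (k : Type) [Field k] (θ : MP →+* k) (χ : G × Fin n → Bool) (a : G) (j : κ),
      θ (ev χ a j) = evp (fun e => θ (MvPolynomial.C (F j e)))
        (fun i => pt (χ (a, i)) (θ (MvPolynomial.X (a, i)))) := by
    intro k _ θ χ a j
    simp only [ev, evp, map_sum, map_mul, map_prod, map_pow]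
    refine Finset.sum_congr rfl fun e _ => ?_
    congr 1
    refine Finset.prod_congr rfl fun i _ => ?_
    by_cases hc : χ (a, i) = true
    · simp [nu, de, pt, num, den, hc]
    · simp [nu, de, pt, num, den, hc]
  have key : ∀ χ : G × Fin n → Bool, ∃ R : Λ, R ≠ 0 ∧
      (good χ → (MvPolynomial.C R : MP) ∈ Ideal.span (S χ)) := by
    intro χ
    by_cases hg : good χ
    swap
    · exact ⟨1, one_ne_zero, fun h => absurd h hg⟩
    by_contra hcon
    push Not at hcon
    -- the multiplicative set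
    let M : Submonoid MP := Submonoid.map (MvPolynomial.C : Λ →+* MP) (nonZeroDivisors Λ)
    have hdis : Disjoint (Ideal.span (S χ) : Set MP) (M : Set MP) := by
      rw [Set.disjoint_left]
      rintro _ hP ⟨R, hR, rfl⟩
      exact (hcon R (nonZeroDivisors.ne_zero hR)).2 hP
    obtain ⟨𝔭, hprime, hle, hdis'⟩ := Ideal.exists_le_prime_disjoint _ M hdis
    let K := FractionRing (MP ⧸ 𝔭)
    let θ : MP →+* K := (algebraMap (MP ⧸ 𝔭) K).comp (Ideal.Quotient.mk 𝔭)
    have hθ0 : ∀ P, θ P = 0 ↔ P ∈ 𝔭 := by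
      intro P
      show algebraMap (MP ⧸ 𝔭) K (Ideal.Quotient.mk 𝔭 P) = 0 ↔ _
      rw [FaithfulSMul.algebraMap_eq_zero_iff, Ideal.Quotient.eq_zero_iff_mem]
    have hinj : Function.Injective (θ.comp (MvPolynomial.C : Λ →+* MP)) := by
      rw [injective_iff_map_eq_zero]
      intro R hR
      by_contra hR0
      exact Set.disjoint_left.1 hdis' ((hθ0 _).1 hR)
        ⟨R, mem_nonZeroDivisors_of_ne_zero hR0, rfl⟩
    apply H K (θ.comp (MvPolynomial.C : Λ →+* MP)) hinj
    have hzero : ∀ P ∈ S χ, θ P = 0 := fun P hP => (hθ0 P).2 (hle (Ideal.subset_span hP))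
    refine ⟨fun a i => pt (χ (a, i)) (θ (MvPolynomial.X (a, i))), ?_, ?_, ?_⟩
    · intro a j
      have h1 := hzero (ev χ a j) (Or.inl (Or.inl ⟨a, j, rfl⟩))
      rw [hev] at h1
      exact h1
    · intro a i hi
      have hc := hg.1 a i hi
      refine ⟨θ (MvPolynomial.X (a, i)), by simp [pt, hc], ?_⟩
      have h1 := hzero _ (Or.inl (Or.inr ⟨a, i, hi, rfl⟩))
      have h2 : nu χ a i = MvPolynomial.X (a, i) := by simp [nu, hc]
      rw [h2, Polynomial.hom_eval₂] at h1
      have e : θ.comp (Int.castRingHom MP) = Int.castRingHom K := RingHom.ext_int _ _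
      rw [e] at h1
      exact h1
    · intro a a' i h1 h2 h3
      have hl : link a a' i := ⟨h1, h2, h3⟩
      have hc := hg.2 a a' i hl
      by_cases hc' : χ (a', i) = true
      · have h4 := hzero _ (Or.inr ⟨a, a', i, hl, hc', Or.inl rfl⟩)
        have h5 := hzero _ (Or.inr ⟨a, a', i, hl, hc', Or.inr rfl⟩)
        have e1 : nu χ a' i = MvPolynomial.X (a', i) := by simp [nu, hc']
        have e2 : nu χ a (ρ i) = MvPolynomial.X (a, ρ i) := by
          rw [hc] at hc'
          simp [nu, hc']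
        rw [e1, e2, ev2_map] at h4 h5
        refine Or.inr ⟨_, _, ?_, ?_, h4, h5⟩
        · simp only [hc', pt, if_true]
        · rw [hc] at hc'
          simp only [hc', pt, if_true]
      · rw [hc] at hc'
        have hc2 : χ (a, ρ i) = false := by simpa using hc'
        refine Or.inl ⟨?_, ?_⟩
        · simp only [hc, hc2, pt, Bool.false_eq_true, if_false]
        · simp only [hc2, pt, Bool.false_eq_true, if_false]
  choose R hR0 hR using key
  refine ⟨∏ χ, R χ, Finset.prod_ne_zero_iff.2 fun χ _ => hR0 χ, fun k _ f hf hgrid => ?_⟩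
  obtain ⟨B, h1, h2, h3⟩ := hgrid
  let χ : G × Fin n → Bool := fun z => (B z.1 z.2).isSome
  apply hf
  rw [map_prod]
  refine Finset.prod_eq_zero (Finset.mem_univ χ) ?_
  let θ : MP →+* k := MvPolynomial.eval₂Hom f (fun z => num (B z.1 z.2))
  have hpt : ∀ a i, pt (χ (a, i)) (θ (MvPolynomial.X (a, i))) = B a i := by
    intro a i
    have h5 : θ (MvPolynomial.X (a, i)) = num (B a i) := MvPolynomial.eval₂Hom_X' _ _ _
    rw [h5]
    show pt (B a i).isSome (num (B a i)) = B a i
    cases B a i <;> simp [num, pt]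
  have hgood : good χ := by
    refine ⟨fun a i hi => ?_, fun a a' i hl => ?_⟩
    · obtain ⟨x, hx, -⟩ := h2 a i hi
      simp [χ, hx]
    · simp only [χ]
      rcases h3 a a' i hl.1 hl.2.1 hl.2.2 with ⟨e1, e2⟩ | ⟨x, x', e1, e2, -, -⟩
      · rw [e1, e2]
      · rw [e1, e2]
        rfl
  have hnu : ∀ a i, χ (a, i) = true → θ (nu χ a i) = num (B a i) := by
    intro a i hc
    have h5 : θ (MvPolynomial.X (a, i)) = num (B a i) := MvPolynomial.eval₂Hom_X' _ _ _
    simp only [nu, hc, if_true]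
    exact h5
  have hker : Ideal.span (S χ) ≤ RingHom.ker θ := by
    rw [Ideal.span_le]
    rintro P ((⟨a, j, rfl⟩ | ⟨a, i, hi, rfl⟩) | ⟨a, a', i, hl, hc, hP⟩)
    · show θ _ = 0
      rw [hev]
      have e1 : (fun i => pt (χ (a, i)) (θ (MvPolynomial.X (a, i)))) = B a :=
        funext fun i => hpt a i
      rw [e1]
      have e2 : (fun e => θ (MvPolynomial.C (F j e))) = fun e => f (F j e) := by
        funext e
        exact MvPolynomial.eval₂Hom_C _ _ _
      rw [e2]
      exact h1 a j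
    · show θ _ = 0
      obtain ⟨x, hx, hx'⟩ := h2 a i hi
      rw [Polynomial.hom_eval₂, hnu a i (hgood.1 a i hi), hx]
      have e : θ.comp (Int.castRingHom MP) = Int.castRingHom k := RingHom.ext_int _ _
      rw [e]
      exact hx'
    · show θ _ = 0
      have hc' : χ (a, ρ i) = true := by rw [← hgood.2 a a' i hl, hc]
      rcases h3 a a' i hl.1 hl.2.1 hl.2.2 with ⟨e1, e2⟩ | ⟨x, x', e1, e2, e3, e4⟩
      · simp only [χ, e1, Option.isSome_none, Bool.false_eq_true] at hc
      · have f1 : num (B a' i) = x := by rw [e1]; rfl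
        have f2 : num (B a (ρ i)) = x' := by rw [e2]; rfl
        rcases hP with rfl | rfl
        · rw [ev2_map, hnu a' i hc, hnu a (ρ i) hc', f1, f2, e3]
        · rw [ev2_map, hnu a' i hc, hnu a (ρ i) hc', f1, f2, e4]
  have h4 : θ (MvPolynomial.C (R χ)) = 0 := hker (hR χ hgood)
  have h5 : θ (MvPolynomial.C (R χ)) = f (R χ) := MvPolynomial.eval₂Hom_C _ _ _
  rw [← h5]
  exact h4

end Pool.Agent.NH30.KF
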