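import Pool.Agent.NH30.KF.Grid

/-!
# Integers which are not linked (helper30)
-/

set_option autoImplicit false

open Function

namespace Pool.Agent.NH30.KF

theorem roots_finite {G : Polynomial (Polynomial ℤ)} (hG : G.Monic) (x : ℂ) :
    {y : ℂ | ev2 G x y = 0}.Finite := by
  have h := (hG.map (Polynomial.eval₂RingHom (Int.castRingHom ℂ) x)).ne_zero
  refine (Polynomial.rootSet_finite (G.map (Polynomial.eval₂RingHom (Int.castRingHom ℂ) x))
    ℂ).subset ?_
  intro y hy
  rw [Polynomial.mem_rootSet]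
  refine ⟨h, ?_⟩
  rw [Polynomial.coe_aeval_eq_eval, Polynomial.eval_map]
  exact hy

/-- the integers linked to `m` in two steps -/
def DD (G : Polynomial (Polynomial ℤ)) (m : ℤ) : Set ℤ :=
  {m' | ∃ y : ℂ, (y = m ∨ ev2 G (m : ℂ) y = 0) ∧ (y = m' ∨ ev2 G y (m' : ℂ) = 0)}

theorem DD_finite {G : Polynomial (Polynomial ℤ)} (hG : G.Monic) (m : ℤ) : (DD G m).Finite := by
  have h1 : ({y : ℂ | y = m} ∪ {y : ℂ | ev2 G (m : ℂ) y = 0}).Finite :=
    (Set.finite_singleton _).union (roots_finite hG _)
  have h2 : ∀ y : ℂ, {m' : ℤ | y = m' ∨ ev2 G y (m' : ℂ) = 0}.Finite := by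
    intro y
    have h3 : ({t : ℂ | y = t} ∪ {t : ℂ | ev2 G y t = 0}).Finite := by
      refine Set.Finite.union ?_ (roots_finite hG _)
      refine (Set.finite_singleton y).subset ?_
      intro t ht
      exact ht.symm
    have h4 := h3.preimage (f := fun m' : ℤ => (m' : ℂ)) (Int.cast_injective.injOn)
    refine h4.subset ?_
    rintro m' (h5 | h5)
    · exact Or.inl h5
    · exact Or.inr h5
  refine (h1.biUnion fun y _ => h2 y).subset ?_
  rintro m' ⟨y, hy, hy'⟩
  rw [Set.mem_iUnion₂]
  exact ⟨y, hy, hy'⟩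

/-- linked or equal -/
def Lp {k : Type*} [CommRing k] (G : Polynomial (Polynomial ℤ)) (X Y : Option k) : Prop :=
  X = Y ∨ Lk G X Y

theorem mem_DD {G : Polynomial (Polynomial ℤ)} (hG : G.Monic) {k : Type} [Field k] [CharZero k]
    {m m' : ℤ} {y : Option k} (h : Lp G (some (m : k)) y) (h' : Lp G (some (m' : k)) y) :
    m' ∈ DD G m := by
  obtain ⟨t, rfl, ht⟩ : ∃ t, y = some t ∧ (t = m ∨ ev2 G (m : k) t = 0) := by
    rcases h with h | ⟨h, -⟩ | ⟨a, b, h1, rfl, h2, -⟩
    · exact ⟨m, h.symm, Or.inl rfl⟩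
    · cases h
    · obtain rfl := Option.some.inj h1
      exact ⟨b, rfl, Or.inr h2⟩
  have ht' : t = m' ∨ ev2 G t (m' : k) = 0 := by
    rcases h' with h | ⟨h, -⟩ | ⟨a, b, h1, h2, h3, h4⟩
    · exact Or.inl (Option.some.inj h).symm
    · cases h
    · obtain rfl := Option.some.inj h1
      obtain rfl := Option.some.inj h2
      exact Or.inr h4
  have hint : IsIntegral ℚ t := by
    rcases ht with rfl | h1
    · have h5 : IsIntegral ℚ (algebraMap ℚ k (m : ℚ)) := isIntegral_algebraMap
      rwa [map_intCast] at h5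
    · refine ⟨G.map (Polynomial.eval₂RingHom (Int.castRingHom ℚ) (m : ℚ)), hG.map _, ?_⟩
      rw [Polynomial.eval₂_map]
      have e : (algebraMap ℚ k).comp (Polynomial.eval₂RingHom (Int.castRingHom ℚ) (m : ℚ)) =
          Polynomial.eval₂RingHom (Int.castRingHom k) (m : k) := by
        refine Polynomial.ringHom_ext (fun m => ?_) ?_
        · simp
        · simp
      rw [e]
      exact h1
  have hK : Algebra.IsAlgebraic ℚ (IntermediateField.adjoin ℚ {t}) :=
    IntermediateField.isAlgebraic_adjoin_simple hint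
  let σ : IntermediateField.adjoin ℚ {t} →ₐ[ℚ] ℂ := IsAlgClosed.lift
  let t' : IntermediateField.adjoin ℚ {t} := ⟨t, IntermediateField.mem_adjoin_simple_self ℚ t⟩
  let v : IntermediateField.adjoin ℚ {t} →+* k := algebraMap _ k
  have hv : Function.Injective v := v.injective
  have hvt : v t' = t := rfl
  refine ⟨σ t', ?_, ?_⟩
  · rcases ht with h1 | h1
    · left
      have : t' = (m : IntermediateField.adjoin ℚ {t}) :=
        hv (hvt.trans (h1.trans (map_intCast v m).symm))
      rw [this, map_intCast]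
    · right
      have h2 : ev2 G (m : IntermediateField.adjoin ℚ {t}) t' = 0 := by
        apply hv
        rw [ev2_map, hvt, map_intCast, h1, map_zero]
      have h3 := congrArg (σ : IntermediateField.adjoin ℚ {t} →+* ℂ) h2
      rw [ev2_map, map_zero, map_intCast] at h3
      exact h3
  · rcases ht' with h1 | h1
    · left
      have : t' = (m' : IntermediateField.adjoin ℚ {t}) :=
        hv (hvt.trans (h1.trans (map_intCast v m').symm))
      rw [this, map_intCast]
    · right
      have h2 : ev2 G t' (m' : IntermediateField.adjoin ℚ {t}) = 0 := by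
        apply hv
        rw [ev2_map, hvt, map_intCast, h1, map_zero]
      have h3 := congrArg (σ : IntermediateField.adjoin ℚ {t} →+* ℂ) h2
      rw [ev2_map, map_zero, map_intCast] at h3
      exact h3

/-- An infinite sequence of integers, no two of which are linked in at most two steps. -/
theorem exists_unlinked {G : Polynomial (Polynomial ℤ)} (hG : G.Monic) (K : ℤ) :
    ∃ m : ℕ → ℤ, (∀ a, K ≤ m a) ∧ ∀ a b, a ≠ b → ∀ (k : Type) [Field k] [CharZero k]
      (y : Option k), Lp G (some (m a : k)) y → Lp G (some (m b : k)) y → False := by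
  classical
  obtain ⟨m, hm, hr⟩ := exists_seq_of_forall_finset_exists (fun x : ℤ => K ≤ x)
    (fun x y => y ∉ DD G x) (by
      intro s _
      have h1 : (⋃ x ∈ s, DD G x).Finite := s.finite_toSet.biUnion fun x _ => DD_finite hG x
      have h2 : (Set.Ici K \ ⋃ x ∈ s, DD G x).Nonempty :=
        ((Set.Ici_infinite K).sdiff h1).nonempty
      obtain ⟨y, hy, hy'⟩ := h2
      refine ⟨y, hy, fun x hx hxy => hy' ?_⟩
      rw [Set.mem_iUnion₂]
      exact ⟨x, hx, hxy⟩)
  refine ⟨m, hm, fun a b hab k _ _ y h h' => ?_⟩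
  rcases lt_or_gt_of_ne hab with hlt | hlt
  · exact hr a b hlt (mem_DD hG h h')
  · exact hr b a hlt (mem_DD hG h' h)

end Pool.Agent.NH30.KF
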