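import Pool.Agent.NH30.KF.Elim
import Pool.Agent.NH30.KF.Seq

/-!
# General systems have no grids (helper30)
-/

set_option autoImplicit false

open Function

namespace Pool.Agent.NH30.KF

/-- The type of a grid problem: `ρ` is a projection onto representatives of the classes of the
coordinates, the coordinates in `S` are fixed, those in `J` are fixed up to finitely many
possibilities and form classes by themselves, and there are fewer classes than conditions. -/
def Cond {n : ℕ} (c : ℕ) (ρ : Fin n → Fin n) (S J : Finset (Fin n)) : Prop :=
  (∀ i, ρ (ρ i) = ρ i) ∧ Disjoint S J ∧ (∀ i ∈ J, ∀ i', ρ i' = ρ i → i' = i) ∧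
    (Finset.univ.filter fun i => ρ i = i).card < c + S.card + J.card

open Classical in
/-- the polynomials satisfied by the fixed coordinates -/
noncomputable def fixPoly {n : ℕ} (z : Fin n → ℤ) (h : Polynomial ℤ) (S : Finset (Fin n))
    (i : Fin n) : Polynomial ℤ :=
  if i ∈ S then Polynomial.X - Polynomial.C (z i) else h

theorem fixPoly_monic {n : ℕ} (z : Fin n → ℤ) {h : Polynomial ℤ} (hh : h.Monic)
    (S : Finset (Fin n)) (i : Fin n) : (fixPoly z h S i).Monic := by
  unfold fixPoly
  split_ifs
  · exact Polynomial.monic_X_sub_C _
  · exact hh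

theorem exists_large (h : Polynomial ℤ) (hh : h.Monic) : ∃ K : ℤ, ∀ m, K ≤ m → h.eval m ≠ 0 := by
  obtain ⟨K, hK⟩ := h.roots.toFinset.bddAbove
  refine ⟨K + 1, fun m hm h0 => ?_⟩
  have h1 : m ∈ h.roots.toFinset := by
    rw [Multiset.mem_toFinset, Polynomial.mem_roots hh.ne_zero]
    exact h0
  have h2 := hK h1
  linarith

theorem general {n c d : ℕ} {G : Polynomial (Polynomial ℤ)} (hG : G.Monic) (h : Polynomial ℤ)
    (hh : h.Monic) :
    ∃ (z : Fin n → ℤ) (R : MvPolynomial (Fin c × (Fin n → Fin (d + 1))) ℤ), R ≠ 0 ∧
      ∀ (k : Type) [Field k] (F : Fin c → (Fin n → Fin (d + 1)) → k),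
        MvPolynomial.eval₂ (Int.castRingHom k) (fun v => F v.1 v.2) R ≠ 0 →
        ∀ (ρ : Fin n → Fin n) (S J : Finset (Fin n)), Cond c ρ S J →
        ¬ HasGrid k G F ρ (S ∪ J) (fixPoly z h S) (n * (c + n)) := by
  classical
  obtain ⟨K, hK⟩ := exists_large h hh
  obtain ⟨sq, hsqK, hsq⟩ := exists_unlinked hG K
  let z : Fin n → ℤ := fun i => sq (i : ℕ)
  let code : Fin c × Fin n × Fin d → ℕ := fun v => Fintype.equivFin _ v
  have hcode : Function.Injective code := fun v w hvw =>
    (Fintype.equivFin (Fin c × Fin n × Fin d)).injective (Fin.ext hvw)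
  let y : Fin c → Fin n → Fin d → ℤ := fun j i u => sq (n + code (j, i, u))
  let Λ := MvPolynomial (Fin c × (Fin n → Fin (d + 1))) ℤ
  let gZ : Fin c → Fin n → Polynomial ℤ := fun j i =>
    ∏ u : Fin d, (Polynomial.X - Polynomial.C (y j i u))
  let w : Fin c → (Fin n → Fin (d + 1)) → ℤ := fun j e => ∏ i, (gZ j i).coeff (e i)
  have hgZm : ∀ j i, (gZ j i).Monic := fun j i =>
    Polynomial.monic_prod_of_monic _ _ fun u _ => Polynomial.monic_X_sub_C _
  have hgZd : ∀ j i, (gZ j i).natDegree = d := by
    intro j i
    rw [Polynomial.natDegree_prod_of_monic _ _ fun u _ => Polynomial.monic_X_sub_C _,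
      Finset.sum_congr rfl fun u _ => Polynomial.natDegree_X_sub_C _]
    simp
  have key : ∀ v : (Fin n → Fin n) × Finset (Fin n) × Finset (Fin n), ∃ R : Λ, R ≠ 0 ∧
      (Cond c v.1 v.2.1 v.2.2 → ∀ (k : Type) [Field k] (f : Λ →+* k), f R ≠ 0 →
        ¬ HasGrid k G (fun j e => f (MvPolynomial.X (j, e))) v.1 (v.2.1 ∪ v.2.2)
          (fixPoly z h v.2.1) (n * (c + n))) := by
    rintro ⟨ρ, S, J⟩
    by_cases hc : Cond c ρ S J
    swap
    · exact ⟨1, one_ne_zero, fun h => absurd h hc⟩
    obtain ⟨R, hR0, hR⟩ := elim (Λ := Λ) G (fun (j : Fin c) e => MvPolynomial.X (j, e)) ρ (S ∪ J)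
      (fixPoly z h S) (n * (c + n)) (by
        intro L _ f hf hgrid
        -- specialization
        let g : Λ →+* ℚ := MvPolynomial.eval₂Hom (Int.castRingHom ℚ) (fun v => (w v.1 v.2 : ℚ))
        obtain ⟨A, hA, hres⟩ := exists_place f g (fun a ha => by
          have : a = 0 := hf (by rw [ha, map_zero])
          rw [this, map_zero])
        let κ := IsLocalRing.ResidueField A
        have hcast : ∀ m : ℤ, (m : κ) = 0 → m = 0 := by
          intro m hm
          have e1 : IsLocalRing.residue A ⟨f (MvPolynomial.C m), hA _⟩ = (m : κ) := by
            have : (⟨f (MvPolynomial.C m), hA _⟩ : A) = (m : A) := by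
              apply Subtype.ext
              have h5 : f.comp MvPolynomial.C = Int.castRingHom L := RingHom.ext_int _ _
              have h6 := RingHom.congr_fun h5 m
              simpa using h6
            rw [this, map_intCast]
          have e2 := (hres (MvPolynomial.C m)).1 (by rw [e1, hm])
          have e3 : g (MvPolynomial.C m) = (m : ℚ) := by
            show MvPolynomial.eval₂Hom _ _ (MvPolynomial.C m) = _
            rw [MvPolynomial.eval₂Hom_C]
            simp
          rw [e3] at e2
          exact_mod_cast e2
        have hinj : ∀ m m' : ℤ, (m : κ) = m' → m = m' := by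
          intro m m' hm
          have := hcast (m - m') (by push_cast; rw [hm, sub_self])
          linarith
        have hchar : CharZero κ := ⟨fun a b hab => by
          have := hinj a b (by push_cast; exact hab)
          exact_mod_cast this⟩
        have hun : ∀ a b, ∀ y : Option κ, Lp G (some (sq a : κ)) y → Lp G (some (sq b : κ)) y →
            a = b := by
          intro a b y h1 h2
          by_contra hab
          exact hsq a b hab κ y h1 h2
        have hsqinj : ∀ a b, sq a = sq b → a = b := fun a b hab =>
          hun a b (some (sq a : κ)) (Or.inl rfl) (Or.inl (by rw [hab]))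
        have hXw : ∀ (j : Fin c) (e : Fin n → Fin (d + 1)),
            IsLocalRing.residue A ⟨f (MvPolynomial.X (j, e)), hA _⟩ = (w j e : κ) := by
          intro j e
          have e1 := (hres (MvPolynomial.X (j, e) - MvPolynomial.C (w j e))).2 (by
            rw [map_sub]
            have h5 : g (MvPolynomial.X (j, e)) = (w j e : ℚ) := MvPolynomial.eval₂Hom_X' _ _ _
            have h6 : g (MvPolynomial.C (w j e)) = (w j e : ℚ) := by
              show MvPolynomial.eval₂Hom _ _ (MvPolynomial.C (w j e)) = _
              rw [MvPolynomial.eval₂Hom_C]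
              simp
            rw [h5, h6, sub_self])
          have e2 : (⟨f (MvPolynomial.X (j, e) - MvPolynomial.C (w j e)), hA _⟩ : A) =
              ⟨f (MvPolynomial.X (j, e)), hA _⟩ - (w j e : A) := by
            apply Subtype.ext
            have h5 : f.comp MvPolynomial.C = Int.castRingHom L := RingHom.ext_int _ _
            have h6 := RingHom.congr_fun h5 (w j e)
            have h7 : f (MvPolynomial.C (w j e)) = ((w j e : ℤ) : L) := by simpa using h6
            show f (MvPolynomial.X (j, e) - MvPolynomial.C (w j e)) = _
            rw [map_sub, h7]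
            push_cast
            rfl
          rw [e2, map_sub, map_intCast, sub_eq_zero] at e1
          exact e1
        have hgrid2 := HasGrid.red (A := A) hG (F := fun (j : Fin c) e =>
          (⟨f (MvPolynomial.X (j, e)), hA _⟩ : A)) (fun i _ => fixPoly_monic z hh S i) hgrid
        simp only [hXw] at hgrid2
        obtain ⟨B, h1, h2, h3⟩ := hgrid2
        -- the sets of marked values
        let R : Fin n → Set (Option κ) := fun i =>
          if i ∈ J then {x | ∃ t, x = some t ∧ h.eval₂ (Int.castRingHom κ) t = 0}
          else {x | x = some (z i : κ) ∨ ∃ j u, x = some (y j i u : κ)}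
        have hcond := hc
        obtain ⟨hρ, hSJ, hJ, hcard⟩ := hc
        have hheval : ∀ m : ℤ, K ≤ m → h.eval₂ (Int.castRingHom κ) (m : κ) ≠ 0 := by
          intro m hm h0
          have e1 : h.eval₂ (Int.castRingHom κ) (m : κ) = ((h.eval m : ℤ) : κ) := by
            have := Polynomial.eval₂_at_apply (p := h) (Int.castRingHom κ) m
            simpa using this
          rw [e1] at h0
          exact hK m hm (hcast _ h0)
        have hyK : ∀ j i u, K ≤ y j i u := fun j i u => hsqK _
        have hcodei : ∀ j i u j' i' u', n + code (j, i, u) = n + code (j', i', u') →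
            j = j' ∧ i = i' := by
          intro j i u j' i' u' he
          have h5 : code (j, i, u) = code (j', i', u') := by omega
          have h6 := hcode h5
          simp only [Prod.mk.injEq] at h6
          exact ⟨h6.1, h6.2.1⟩
        have hyz : ∀ j i u i', y j i u ≠ z i' := by
          intro j i u i' he
          have h5 := hsqinj _ _ he
          have := i'.2
          omega
        have hyinj : ∀ j i u j' i' u', y j i u = y j' i' u' → j = j' ∧ i = i' := by
          intro j i u j' i' u' he
          exact hcodei _ _ _ _ _ _ (hsqinj _ _ he)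
        refine comb (q := c + S.card + J.card) ρ hρ B (Lk G) h3 R ?_ ?_ hcard ?_
        · intro i i' hii hρi x hx x' hx' t ht ht'
          have hiJ : i ∉ J := fun hi => hii (hJ i hi i' hρi.symm).symm
          have hiJ' : i' ∉ J := fun hi => hii (hJ i' hi i hρi)
          simp only [R, if_neg hiJ] at hx
          simp only [R, if_neg hiJ'] at hx'
          rcases hx with rfl | ⟨j, u, rfl⟩ <;> rcases hx' with rfl | ⟨j', u', rfl⟩
          · exact hii (Fin.ext (hun _ _ t ht ht'))
          · have h6 := hun _ _ t ht ht'
            have := i.2
            omega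
          · have h6 := hun _ _ t ht ht'
            have := i'.2
            omega
          · have h6 := hun _ _ t ht ht'
            exact hii (hcodei _ _ _ _ _ _ h6).2
        · intro a
          have hex : ∀ j : Fin c, ∃ i, ∃ u, B a i = some (y j i u : κ) := by
            intro j
            have e1 : (fun e => (w j e : κ)) = prodC (d := d) (fun i =>
                (gZ j i).map (Int.castRingHom κ)) := by
              funext e
              simp only [w, prodC, Polynomial.coeff_map, Int.cast_prod, eq_intCast]
            have e2 := h1 a j
            beta_reduce at e2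
            rw [e1] at e2
            obtain ⟨i, x, hx, hx0⟩ := evp_prodC _ (fun i => ⟨(hgZm j i).map _, by
              rw [(hgZm j i).natDegree_map, hgZd j i]⟩) _ e2
            refine ⟨i, ?_⟩
            rw [Polynomial.eval_map] at hx0
            simp only [gZ] at hx0
            rw [Polynomial.eval₂_finsetProd, Finset.prod_eq_zero_iff] at hx0
            obtain ⟨u, -, hu⟩ := hx0
            refine ⟨u, ?_⟩
            rw [Polynomial.eval₂_sub, Polynomial.eval₂_X, Polynomial.eval₂_C, sub_eq_zero] at hu
            rw [hx, hu]
            simp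
          choose ι u hιu using hex
          have hιinj : Function.Injective ι := by
            intro j j' hjj
            have e1 := hιu j
            have e2 := hιu j'
            rw [← hjj, e1] at e2
            exact (hyinj _ _ _ _ _ _ (hinj _ _ (Option.some.inj e2))).1
          have hιS : ∀ j, ι j ∉ S := by
            intro j hj
            obtain ⟨x, hx, hx0⟩ := h2 a (ι j) (Finset.mem_union_left _ hj)
            rw [hιu j] at hx
            have hx' := Option.some.inj hx
            rw [← hx', fixPoly, if_pos hj, Polynomial.eval₂_sub, Polynomial.eval₂_X,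
              Polynomial.eval₂_C, sub_eq_zero, eq_intCast] at hx0
            exact hyz _ _ _ _ (hinj _ _ hx0)
          have hιJ : ∀ j, ι j ∉ J := by
            intro j hj
            obtain ⟨x, hx, hx0⟩ := h2 a (ι j) (Finset.mem_union_right _ hj)
            rw [hιu j] at hx
            have hx' := Option.some.inj hx
            rw [← hx', fixPoly, if_neg (hιS j)] at hx0
            exact hheval _ (hyK _ _ _) hx0
          refine ⟨Finset.univ.image ι ∪ (S ∪ J), ?_, ?_⟩
          · rw [Finset.card_union_of_disjoint, Finset.card_union_of_disjoint hSJ,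
              Finset.card_image_of_injective _ hιinj, Finset.card_univ, Fintype.card_fin,
              add_assoc]
            rw [Finset.disjoint_left]
            intro i hi
            obtain ⟨j, -, rfl⟩ := Finset.mem_image.1 hi
            rw [Finset.mem_union, not_or]
            exact ⟨hιS j, hιJ j⟩
          · intro i hi
            rcases Finset.mem_union.1 hi with hi | hi
            · obtain ⟨j, -, rfl⟩ := Finset.mem_image.1 hi
              simp only [R, if_neg (hιJ j)]
              exact Or.inr ⟨j, u j, hιu j⟩
            · obtain ⟨x, hx, hx0⟩ := h2 a i hi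
              by_cases hiS : i ∈ S
              · have hiJ : i ∉ J := fun h5 => Finset.disjoint_left.1 hSJ hiS h5
                simp only [R, if_neg hiJ]
                left
                rw [fixPoly, if_pos hiS, Polynomial.eval₂_sub, Polynomial.eval₂_X,
                  Polynomial.eval₂_C, sub_eq_zero, eq_intCast] at hx0
                rw [hx, hx0]
              · have hiJ : i ∈ J := (Finset.mem_union.1 hi).resolve_left hiS
                simp only [R, if_pos hiJ]
                rw [fixPoly, if_neg hiS] at hx0
                exact ⟨x, hx, hx0⟩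
        · have h5 : S.card + J.card ≤ n := by
            rw [← Finset.card_union_of_disjoint hSJ]
            simpa using Finset.card_le_univ (S ∪ J)
          exact Nat.mul_le_mul_left _ (by omega))
    exact ⟨R, hR0, fun _ => hR⟩
  choose R hR0 hR using key
  refine ⟨z, ∏ v, R v, Finset.prod_ne_zero_iff.2 fun v _ => hR0 v, ?_⟩
  intro k _ F hF ρ S J hcond
  let f : Λ →+* k := MvPolynomial.eval₂Hom (Int.castRingHom k) (fun v => F v.1 v.2)
  have h1 : f (R (ρ, S, J)) ≠ 0 := by
    intro h0
    apply hF
    show f (∏ v, R v) = 0
    rw [map_prod]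
    exact Finset.prod_eq_zero (Finset.mem_univ (ρ, S, J)) h0
  have h2 := hR (ρ, S, J) hcond k f h1
  have h3 : (fun (j : Fin c) (e : Fin n → Fin (d + 1)) => f (MvPolynomial.X (j, e))) = F := by
    funext j e
    exact MvPolynomial.eval₂Hom_X' _ _ _
  rw [h3] at h2
  exact h2

end Pool.Agent.NH30.KF
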