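import Pool.Agent.NH30.KF.Grid

/-!
# Systems without grids (helper30)
-/

set_option autoImplicit false

open Function

namespace Pool.Agent.NH30.KF

/-- Counting: a grid cannot have too many marked coordinates. -/
theorem comb {α : Type*} {n L q : ℕ} (ρ : Fin n → Fin n) (hρ : ∀ i, ρ (ρ i) = ρ i)
    (B : (Fin n → Fin (L + 1)) → Fin n → α) (K : α → α → Prop)
    (hB : ∀ a a' i, ρ i ≠ i → (∀ j, j ≠ i → a' j = a j) → (a' i : ℕ) = a i + 1 →
      K (B a' i) (B a (ρ i)))
    (R : Fin n → Set α) (hR : ∀ i i', i ≠ i' → ρ i = ρ i' → ∀ x ∈ R i, ∀ x' ∈ R i', ∀ y,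
      (x = y ∨ K x y) → (x' = y ∨ K x' y) → False)
    (hq : ∀ a, ∃ T : Finset (Fin n), q ≤ T.card ∧ ∀ i ∈ T, B a i ∈ R i)
    (hroots : (Finset.univ.filter fun i => ρ i = i).card < q) (hL : n * q ≤ L) : False := by
  classical
  choose T hT hTR using hq
  let S : Finset (Σ _ : Fin n → Fin L, Fin n) :=
    Finset.univ.sigma fun a => T (fun i => (a i).succ)
  let roots : Finset (Fin n) := Finset.univ.filter fun i => ρ i = i
  let U : Finset ((Fin n → Fin (L + 1)) × Fin n) := Finset.univ ×ˢ roots
  let φ : (Σ _ : Fin n → Fin L, Fin n) → (Fin n → Fin (L + 1)) × Fin n := fun z =>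
    (if ρ z.2 = z.2 then fun i => (z.1 i).succ
      else Function.update (fun i => (z.1 i).succ) z.2 (z.1 z.2).castSucc, ρ z.2)
  have hφU : ∀ z ∈ S, φ z ∈ U := by
    intro z _
    simp only [U, roots, φ, Finset.mem_product, Finset.mem_univ, true_and, Finset.mem_filter]
    exact hρ _
  have hval : ∀ z ∈ S, ∃ x ∈ R z.2, x = B (φ z).1 (φ z).2 ∨ K x (B (φ z).1 (φ z).2) := by
    rintro ⟨a, i⟩ hz
    have hi : i ∈ T (fun i => (a i).succ) := by
      simpa [S] using hz
    refine ⟨_, hTR _ i hi, ?_⟩
    simp only [φ]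
    split_ifs with h
    · left
      rw [h]
    · right
      refine hB (Function.update (fun i => (a i).succ) i (a i).castSucc) (fun i => (a i).succ) i h
        ?_ ?_
      · intro j hj
        rw [Function.update_of_ne hj]
      · simp
  have hinj : Set.InjOn φ S := by
    rintro ⟨a, i⟩ hz ⟨a', i'⟩ hz' he
    obtain ⟨x, hxR, hv⟩ := hval _ hz
    obtain ⟨x', hxR', hv'⟩ := hval _ hz'
    rw [he] at hv
    have hρe : ρ i = ρ i' := congrArg Prod.snd he
    have hii : i = i' := by
      by_contra hne
      exact hR i i' hne hρe x hxR x' hxR' _ hv hv'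
    subst hii
    have h1 := congrArg Prod.fst he
    simp only [φ] at h1
    have haa : a = a' := by
      funext j
      have h2 := congrFun h1 j
      split_ifs at h2 with h
      · exact Fin.succ_injective _ h2
      · by_cases hj : j = i
        · subst hj
          simp only [Function.update_self] at h2
          exact Fin.castSucc_injective _ h2
        · rw [Function.update_of_ne hj, Function.update_of_ne hj] at h2
          exact Fin.succ_injective _ h2
    rw [haa]
  have hcard := Finset.card_le_card_of_injOn φ hφU hinj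
  have hS : q * L ^ n ≤ S.card := by
    rw [Finset.card_sigma]
    calc q * L ^ n = ∑ _a : Fin n → Fin L, q := by simp [mul_comm]
      _ ≤ _ := Finset.sum_le_sum fun a _ => hT _
  have hU : U.card = (L + 1) ^ n * roots.card := by
    rw [Finset.card_product]
    simp
  have h1 : q * L ^ n ≤ (L + 1) ^ n * (q - 1) := by
    calc q * L ^ n ≤ S.card := hS
      _ ≤ U.card := hcard
      _ = (L + 1) ^ n * roots.card := hU
      _ ≤ _ := Nat.mul_le_mul_left _ (by have : roots.card < q := hroots; omega)
  have hq0 : 0 < q := by omega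
  -- Bernoulli
  have hb : ((L + 1 : ℕ) : ℝ) ^ n * (q - 1) < q * (L : ℝ) ^ n := by
    have hL1 : (0 : ℝ) < (L : ℝ) + 1 := by positivity
    have h2 := one_add_mul_le_pow (a := -(1 / ((L : ℝ) + 1))) (by
      have : 1 / ((L : ℝ) + 1) ≤ 1 := by
        rw [div_le_one hL1]
        have : (0 : ℝ) ≤ L := by positivity
        linarith
      linarith) n
    have h3 : (1 : ℝ) + -(1 / ((L : ℝ) + 1)) = L / (L + 1) := by
      field_simp
      ring
    rw [h3, div_pow] at h2
    have h4 : ((L : ℝ) + 1) ^ n * (1 + n * -(1 / ((L : ℝ) + 1))) ≤ (L : ℝ) ^ n := by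
      rw [le_div_iff₀ (by positivity)] at h2
      linarith
    have hqr : (0 : ℝ) < q := by exact_mod_cast hq0
    have h5 : (n : ℝ) * q ≤ L := by exact_mod_cast hL
    have h6 : (q : ℝ) - 1 < q * (1 + n * -(1 / ((L : ℝ) + 1))) := by
      have : (n : ℝ) * q / (L + 1) < 1 := by
        rw [div_lt_one hL1]
        linarith
      have e : (q : ℝ) * (1 + n * -(1 / ((L : ℝ) + 1))) = q - n * q / (L + 1) := by
        field_simp
        ring
      rw [e]
      linarith
    have h7 : (0 : ℝ) < ((L : ℝ) + 1) ^ n := by positivity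
    push_cast
    calc ((L : ℝ) + 1) ^ n * (q - 1) < ((L : ℝ) + 1) ^ n *
          (q * (1 + n * -(1 / ((L : ℝ) + 1)))) := by gcongr
      _ = q * (((L : ℝ) + 1) ^ n * (1 + n * -(1 / ((L : ℝ) + 1)))) := by ring
      _ ≤ q * (L : ℝ) ^ n := by gcongr
  have h8 : ((q * L ^ n : ℕ) : ℝ) ≤ (((L + 1) ^ n * (q - 1) : ℕ) : ℝ) := by exact_mod_cast h1
  push_cast [Nat.cast_sub hq0] at h8 hb
  linarith

/-- the coefficients of a product of polynomials, one in each variable -/
noncomputable def prodC {k : Type*} [Field k] {n d : ℕ} (g : Fin n → Polynomial k) :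
    (Fin n → Fin (d + 1)) → k :=
  fun e => ∏ i, (g i).coeff (e i)

theorem evp_prodC {k : Type*} [Field k] {n d : ℕ} (g : Fin n → Polynomial k)
    (hg : ∀ i, (g i).Monic ∧ (g i).natDegree = d) (X : Fin n → Option k)
    (h : evp (prodC (d := d) g) X = 0) : ∃ i x, X i = some x ∧ (g i).eval x = 0 := by
  classical
  have e1 : evp (prodC (d := d) g) X =
      ∏ i, ∑ e : Fin (d + 1), (g i).coeff e * (num (X i) ^ (e : ℕ) * den (X i) ^ (d - (e : ℕ))) := by
    rw [Finset.prod_univ_sum]
    unfold evp prodC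
    rw [Fintype.piFinset_univ]
    refine Finset.sum_congr rfl fun e _ => ?_
    rw [← Finset.prod_mul_distrib]
  rw [e1, Finset.prod_eq_zero_iff] at h
  obtain ⟨i, -, hi⟩ := h
  cases hX : X i with
  | none =>
    exfalso
    rw [hX, Fin.sum_univ_castSucc] at hi
    simp only [num, den, one_pow, one_mul, Fin.val_last, Nat.sub_self, pow_zero, mul_one,
      Fin.val_castSucc] at hi
    have h2 : ∑ x : Fin d, (g i).coeff (x : ℕ) * (0 : k) ^ (d - (x : ℕ)) = 0 := by
      refine Finset.sum_eq_zero fun x _ => ?_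
      rw [zero_pow, mul_zero]
      have := x.2
      omega
    rw [h2, zero_add] at hi
    have h3 : (g i).coeff d = 1 := by
      rw [← (hg i).2]
      exact (hg i).1
    rw [h3] at hi
    exact one_ne_zero hi
  | some x =>
    refine ⟨i, x, hX, ?_⟩
    rw [hX] at hi
    simp only [num, den, one_pow, mul_one] at hi
    rw [Polynomial.eval_eq_sum_range, (hg i).2, ← Fin.sum_univ_eq_sum_range
      (fun e => (g i).coeff e * x ^ e) (d + 1)]
    exact hi

end Pool.Agent.NH30.KF
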