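import Mathlib

/-!
# Counting integral zeros of a polynomial in a box (helper30)
-/

set_option autoImplicit false

namespace Pool.Agent.NH30.KF

open MvPolynomial Finset

open Classical in
theorem count_fin {N : ℕ} {R : MvPolynomial (Fin N) ℤ} (hR : R ≠ 0) (H : ℕ) :
    ((Fintype.piFinset fun _ : Fin N => Finset.Icc (-(H : ℤ)) H).filter
      fun v => eval v R = 0).card * (2 * H + 1) ≤ R.totalDegree * (2 * H + 1) ^ N := by
  have h := schwartz_zippel_totalDegree hR (Finset.Icc (-(H : ℤ)) H)
  have hc : (Finset.Icc (-(H : ℤ)) H).card = 2 * H + 1 := by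
    rw [Int.card_Icc]
    omega
  rw [hc] at h
  have hq : (0 : ℚ≥0) < ((2 * H + 1 : ℕ) : ℚ≥0) := by positivity
  rw [div_le_div_iff₀ (by positivity) hq] at h
  exact_mod_cast h

open Classical in
theorem count_fintype {σ : Type*} [Fintype σ] {R : MvPolynomial σ ℤ} (hR : R ≠ 0) (H : ℕ) :
    {v : σ → ℤ | (∀ s, |v s| ≤ H) ∧ eval v R = 0}.ncard * (2 * H + 1) ≤
      R.totalDegree * (2 * H + 1) ^ Fintype.card σ := by
  let e := Fintype.equivFin σ
  have hR' : rename e R ≠ 0 := fun h => hR (rename_injective e e.injective (by rw [h, map_zero]))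
  have h1 := count_fin hR' H
  have hdeg : (rename e R).totalDegree ≤ R.totalDegree := totalDegree_rename_le _ _
  have h2 : {v : σ → ℤ | (∀ s, |v s| ≤ H) ∧ eval v R = 0}.ncard ≤
      ((Fintype.piFinset fun _ : Fin (Fintype.card σ) => Finset.Icc (-(H : ℤ)) H).filter
        fun v => eval v (rename e R) = 0).card := by
    rw [← Set.ncard_coe_finset]
    refine Set.ncard_le_ncard_of_injOn (fun v i => v (e.symm i)) ?_ ?_ (Finset.finite_toSet _)
    · rintro v ⟨hv, hv0⟩
      rw [Finset.mem_coe, Finset.mem_filter, Fintype.mem_piFinset]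
      refine ⟨fun i => ?_, ?_⟩
      · rw [Finset.mem_Icc]
        exact abs_le.1 (hv _)
      · rw [eval_rename]
        have : (fun i => v (e.symm i)) ∘ e = v := by
          funext s
          simp
        rw [this]
        exact hv0
    · intro v _ w _ h
      funext s
      have := congrFun h (e s)
      simpa using this
  calc _ ≤ _ * (2 * H + 1) := Nat.mul_le_mul_right _ h2
    _ ≤ _ := h1
    _ ≤ _ := Nat.mul_le_mul_right _ hdeg

end Pool.Agent.NH30.KF
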