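import Pool.Agent.H294ZP.Main

/-!
# Families of modular functions permuted by `SL(2, ℤ)` (helper30)

If finitely many functions with `q`-expansions with algebraic integral coefficients are permuted by
`SL(2, ℤ)`, then their values are integral over `ℤ[j]`. Application: the congruence of Kronecker.
-/

set_option autoImplicit false

open UpperHalfPlane ModularForm Function

namespace Pool.Agent.NH30.KF

open H294ZP H294ZP.TDaux

theorem integral_of_family_aux (hB : TB) (hC : TC) {N : ℕ} (hN : 0 < N) {ι : Type}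
    [Fintype ι] [DecidableEq ι] (G : ι → ℍ → ℂ) (hG : ∀ k, Lx N (G k))
    (hperm : ∀ (p q r s : ℤ), p * s - q * r = 1 → ∀ τ w : ℍ, (w : ℂ) * (r * τ + s) = p * τ + q →
      ∃ σ : Equiv.Perm ι, ∀ k, G k w = G (σ k) τ) (τ : ℍ) (k : ι) :
    IsIntegral (Algebra.adjoin ℤ {jj τ}) (G k τ) := by
  classical
  let F : ℍ → Polynomial ℂ := fun τ => ∏ k, (Polynomial.X - Polynomial.C (G k τ))
  have hco := coeff_prod hC hN G hG Finset.univ
  have hinv : ∀ j, Inv (fun τ => (F τ).coeff j) := by
    intro j p q r s hps τ w hw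
    obtain ⟨σ, hσ⟩ := hperm p q r s hps τ w hw
    have : F w = F τ := by
      show ∏ k, (Polynomial.X - Polynomial.C (G k w)) = ∏ k, (Polynomial.X - Polynomial.C (G k τ))
      rw [← Equiv.prod_comp σ (fun k => (Polynomial.X - Polynomial.C (G k τ)))]
      exact Finset.prod_congr rfl fun k _ => by rw [hσ k]
    show (F w).coeff j = (F τ).coeff j
    rw [this]
  have hmon : (F τ).Monic :=
    Polynomial.monic_prod_of_monic _ _ fun k _ => Polynomial.monic_X_sub_C _
  have hint : ∀ j, IsIntegral (Algebra.adjoin ℤ {jj τ}) ((F τ).coeff j) := by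
    intro j
    obtain ⟨⟨m, A, hL⟩, hH⟩ := hco j
    obtain ⟨P, hP1, hP2, -⟩ := hB N hN m A _ (hinv j) hH hL
    have hval : (F τ).coeff j = P.eval (jj τ) := hP2 τ
    rw [hval, Polynomial.eval_eq_sum]
    refine IsIntegral.sum _ fun k _ => ?_
    refine IsIntegral.mul ((hP1 k).tower_top) (IsIntegral.pow ?_ _)
    exact isIntegral_algebraMap (x := (⟨jj τ, Algebra.subset_adjoin rfl⟩ :
      Algebra.adjoin ℤ {jj τ}))
  have hroot : (F τ).eval (G k τ) = 0 := by
    show (∏ k, (Polynomial.X - Polynomial.C (G k τ))).eval (G k τ) = 0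
    rw [Polynomial.eval_prod]
    exact Finset.prod_eq_zero (Finset.mem_univ k) (by simp)
  let S := integralClosure (Algebra.adjoin ℤ {jj τ}) ℂ
  have hlift : F τ ∈ Polynomial.lifts (algebraMap S ℂ) := by
    rw [Polynomial.lifts_iff_coeff_lifts]
    intro j
    exact ⟨⟨(F τ).coeff j, hint j⟩, rfl⟩
  obtain ⟨q, hq, -, hqm⟩ := Polynomial.lifts_and_natDegree_eq_and_monic hlift hmon
  have hS : IsIntegral S (G k τ) := ⟨q, hqm, by rw [Polynomial.eval₂_eq_eval_map, hq]; exact hroot⟩
  exact isIntegral_trans _ hS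

/-- `TA`, `TB`, `TC`, `TF` -/
theorem hTA : TA := ⟨ta1.1, ta1.2, ta2⟩
theorem hTB : TB := TBproof.tb hTA tc
theorem hTC : TC := tc
theorem hTF : TF := TF676.tf ta1.1

/-- The values of finitely many functions with integral expansions, permuted by `SL(2, ℤ)`, are
integral over `ℤ[j]`. -/
theorem integral_of_family {N : ℕ} (hN : 0 < N) {ι : Type}
    [Fintype ι] [DecidableEq ι] (G : ι → ℍ → ℂ) (hG : ∀ k, Lx N (G k))
    (hperm : ∀ (p q r s : ℤ), p * s - q * r = 1 → ∀ τ w : ℍ, (w : ℂ) * (r * τ + s) = p * τ + q →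
      ∃ σ : Equiv.Perm ι, ∀ k, G k w = G (σ k) τ) (τ : ℍ) (k : ι) :
    IsIntegral (Algebra.adjoin ℤ {jj τ}) (G k τ) :=
  integral_of_family_aux hTB hTC hN G hG hperm τ k

/-! ### the expansion of `j` with rational integral coefficients -/

open H294ZP.TA2

theorem exists_W : ∃ W : PowerSeries ℤ, PowerSeries.constantCoeff W = 1 ∧
    R (mp W) (fun τ => qq 1 τ * jj τ) := by
  have h := R_mul (R_mul (R_mul R_E4 R_E4) R_E4) R_V
  rw [E4_eq, ← map_mul, ← map_mul, ← map_mul] at h
  refine ⟨(1 + 240 * A) * (1 + 240 * A) * (1 + 240 * A) * V, ?_, ?_⟩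
  · have hA : PowerSeries.constantCoeff A = 0 := by
      rw [← PowerSeries.coeff_zero_eq_constantCoeff_apply, A0]
    have hV : PowerSeries.constantCoeff V = 1 := by
      have := congrArg PowerSeries.constantCoeff UV
      rw [map_mul, U0, one_mul, map_one] at this
      exact this
    simp [hA, hV]
  · intro τ
    have h2 := h τ
    have h3 : E₄ τ * E₄ τ * E₄ τ * (qq 1 τ / discriminant τ) = qq 1 τ * jj τ := by
      unfold jj
      ring
    simp only [h3] at h2
    exact h2

theorem R_one : R (1 : PowerSeries ℂ) (fun _ => 1) := by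
  intro τ
  have := hasSum_ite_eq (0 : ℕ) (1 : ℂ)
  have h7 : (fun n : ℕ => (1 : PowerSeries ℂ).coeff n * qq 1 τ ^ n) =
      fun n : ℕ => if n = 0 then (1 : ℂ) else 0 := by
    funext n
    rw [PowerSeries.coeff_one]
    by_cases hn : n = 0
    · subst hn
      simp
    · simp [hn]
  rw [h7]
  exact this

theorem R_pow {P : PowerSeries ℂ} {F : ℍ → ℂ} (hP : R P F) (k : ℕ) :
    R (P ^ k) (fun τ => F τ ^ k) := by
  induction k with
  | zero => simpa using R_one
  | succ k ih =>
    have := R_mul ih hP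
    simpa only [pow_succ] using this

/-- `W ^ p` and `W (X ^ p)` are congruent modulo `p`. -/
theorem frob_series (p : ℕ) [Fact p.Prime] (W : PowerSeries ℤ) :
    ∃ Q : PowerSeries ℤ, ∀ n, (W ^ p).coeff n =
      (if p ∣ n then W.coeff (n / p) else 0) + p * Q.coeff n := by
  have key : ∀ n, (p : ℤ) ∣ (W ^ p).coeff n - (if p ∣ n then W.coeff (n / p) else 0) := by
    intro n
    have hp : p.Prime := Fact.out
    set f : Polynomial ℤ := PowerSeries.trunc (n + 1) W with hf
    have h1 : (W ^ p).coeff n = (f ^ p).coeff n := by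
      have h2 := PowerSeries.trunc_trunc_pow W (n + 1) p
      have h3 := congrArg (fun g => Polynomial.coeff g n) h2
      simp only [PowerSeries.coeff_trunc, if_pos (Nat.lt_succ_self n)] at h3
      rw [← h3, ← Polynomial.coe_pow, Polynomial.coeff_coe]
    have h4 : (Polynomial.expand ℤ p f).coeff n = (if p ∣ n then W.coeff (n / p) else 0) := by
      rw [Polynomial.coeff_expand hp.pos]
      split_ifs with h
      · rw [hf, PowerSeries.coeff_trunc, if_pos]
        exact lt_of_le_of_lt (Nat.div_le_self _ _) (Nat.lt_succ_self n)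
      · rfl
    rw [h1, ← h4, ← ZMod.intCast_zmod_eq_zero_iff_dvd]
    rw [← Polynomial.coeff_sub]
    have h5 : ((f ^ p - Polynomial.expand ℤ p f).map (Int.castRingHom (ZMod p))) = 0 := by
      rw [Polynomial.map_sub, Polynomial.map_pow, Polynomial.map_expand, ZMod.expand_card, sub_self]
    have h6 := congrArg (fun g => Polynomial.coeff g n) h5
    simpa only [Polynomial.coeff_map, Polynomial.coeff_zero, eq_intCast] using h6
  choose q hq using key
  refine ⟨PowerSeries.mk q, fun n => ?_⟩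
  rw [PowerSeries.coeff_mk]
  linarith [hq n]

theorem exists_Q (p : ℕ) [Fact p.Prime] : ∃ Q : PowerSeries ℤ, ∀ (τ₁ τ₂ : ℍ) (b : ℤ),
    (τ₂ : ℂ) = p * τ₁ + b →
    HasSum (fun n => (Q.coeff n : ℂ) * qq 1 τ₁ ^ n)
      (qq 1 τ₁ ^ p * ((jj τ₁ ^ p - jj τ₂) / p)) := by
  have hp : p.Prime := Fact.out
  have hp0 : (p : ℂ) ≠ 0 := by exact_mod_cast hp.ne_zero
  obtain ⟨W, -, hW⟩ := exists_W
  obtain ⟨Q, hQ⟩ := frob_series p W
  refine ⟨Q, fun τ₁ τ₂ b h => ?_⟩
  have hq : qq 1 τ₂ = qq 1 τ₁ ^ p := by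
    unfold qq
    rw [← Complex.exp_nat_mul, h, Complex.exp_eq_exp_iff_exists_int]
    refine ⟨b, ?_⟩
    push_cast
    ring
  have h1 := R_pow hW p τ₁
  rw [← map_pow] at h1
  have h2 := hW τ₂
  beta_reduce at h1 h2
  rw [hq] at h2
  have hinj : Function.Injective (fun n : ℕ => p * n) := fun a b hab =>
    Nat.eq_of_mul_eq_mul_left hp.pos hab
  have h3 : HasSum (fun n => (if p ∣ n then (W.coeff (n / p) : ℂ) else 0) * qq 1 τ₁ ^ n)
      (qq 1 τ₁ ^ p * jj τ₂) := by
    rw [← hinj.hasSum_iff]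
    · refine TCx.hs_congr h2 (fun n => ?_) rfl
      simp only [comp_apply, dvd_mul_right, if_true, Nat.mul_div_cancel_left n hp.pos, pow_mul,
        PowerSeries.coeff_map, eq_intCast]
    · intro n hn
      have : ¬ p ∣ n := fun ⟨k, hk⟩ => hn ⟨k, hk.symm⟩
      simp [this]
  have h4 := (h1.sub h3).div_const (p : ℂ)
  refine TCx.hs_congr h4 (fun n => ?_) ?_
  · rw [PowerSeries.coeff_map, eq_intCast, hQ n]
    push_cast
    split_ifs
    · field_simp
      ring
    · field_simp
      ring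
  · rw [mul_pow]
    field_simp

theorem lau_up {m : ℕ} {A : ℂ} {f : ℍ → ℂ} (h : Lau 1 m A f) (N : ℕ) (hN : 0 < N) :
    Lau N (N * m) A f := by
  obtain ⟨c, hc0, hci, hc⟩ := h
  refine ⟨fun n => if N ∣ n then c (n / N) else 0, by simp [hc0], fun n => ?_, fun τ => ?_⟩
  · dsimp only
    split_ifs
    · exact hci _
    · exact isIntegral_zero
  · have hq : qq 1 τ = qq N τ ^ N := by
      unfold qq
      rw [← Complex.exp_nat_mul]
      congr 1
      have : (N : ℂ) ≠ 0 := by exact_mod_cast hN.ne'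
      push_cast; field_simp
    have h1 := hc τ
    rw [hq, ← pow_mul] at h1
    have hinj : Function.Injective (fun n : ℕ => N * n) := fun a b hab =>
      Nat.eq_of_mul_eq_mul_left hN hab
    rw [← hinj.hasSum_iff]
    · convert h1 using 1
      ext n
      simp only [comp_apply, dvd_mul_right, if_true, Nat.mul_div_cancel_left n hN, pow_mul]
    · intro n hn
      have : ¬ N ∣ n := fun ⟨k, hk⟩ => hn ⟨k, hk.symm⟩
      simp [this]

/-- The congruence of Kronecker: if `τ' = g τ` with `det g = p` then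
`(j τ' - (j τ)^p) ((j τ')^p - j τ) / p` is integral over `ℤ[j τ]`. -/
theorem kronecker (p : ℕ) [Fact p.Prime] (τ w : ℍ) (a b c d : ℤ) (hdet : a * d - b * c = p)
    (hw : (w : ℂ) * (c * τ + d) = a * τ + b) :
    IsIntegral (Algebra.adjoin ℤ {jj τ})
      ((jj w - jj τ ^ p) * (jj w ^ p - jj τ) / p) := by
  have hp : p.Prime := Fact.out
  have hp0 : (p : ℂ) ≠ 0 := by exact_mod_cast hp.ne_zero
  obtain ⟨ι, _, _, α, δ, β, h, h1, h2, h3, h4⟩ := hTF p hp.pos
  obtain ⟨Q, hQ⟩ := exists_Q p
  have hjL : Lx p jj := ⟨⟨_, _, TBproof.lau_jj hTA.2.2 p hp.pos⟩, hTA.2.1⟩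
  have hneg : Lx p (fun _ => (-1 : ℂ)) := Lx.const hTC hp.pos (isIntegral_one.neg)
  have hpowL : ∀ f : ℍ → ℂ, Lx p f → ∀ k, Lx p (fun τ => f τ ^ k) := by
    intro f hf k
    induction k with
    | zero => simpa using Lx.const hTC hp.pos (A := 1) isIntegral_one
    | succ k ih =>
      have := Lx.mul hTC hp.pos ih hf
      simpa only [pow_succ] using this
  have hsubL : ∀ f g : ℍ → ℂ, Lx p f → Lx p g → Lx p (fun τ => f τ - g τ) := by
    intro f g hf hg
    have := Lx.add hTC hp.pos hf (Lx.neg hTC hp.pos hg)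
    simpa only [sub_eq_add_neg] using this
  have hhk : ∀ k, Lx p (fun τ => jj (h k τ)) := by
    intro k
    obtain ⟨ha, hd, had⟩ := h1 k
    have := hTC.2.2.2.2 hTA.2.1 hTA.2.2 (α k) (δ k) (β k) ha hd (h k) (h2 k)
    rw [had] at this
    exact ⟨⟨_, _, this.1⟩, this.2⟩
  have hHol : ∀ k, Hol (fun τ => (jj (h k τ) ^ p - jj τ) / p) ∧
      Hol (fun τ => (jj τ ^ p - jj (h k τ)) / p) := by
    intro k
    have e1 := (hsubL _ _ (hpowL _ (hhk k) p) hjL).2
    have e2 := (hsubL _ _ (hpowL _ hjL p) (hhk k)).2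
    refine ⟨?_, ?_⟩
    · exact DifferentiableOn.div_const e1 _
    · exact DifferentiableOn.div_const e2 _
  let G : ι → ℍ → ℂ := fun k τ => (jj (h k τ) - jj τ ^ p) * (jj (h k τ) ^ p - jj τ) / p
  have hG : ∀ k, Lx p (G k) := by
    intro k
    obtain ⟨ha, hd, had⟩ := h1 k
    rcases (Nat.dvd_prime hp).1 (Dvd.intro _ had) with ha1 | hap
    · -- `a = 1`, `d = p`
      have hdp : δ k = p := by rw [ha1, one_mul] at had; exact had
      have hζ : Lau p p (Q.coeff 0 : ℂ) (fun τ => (jj (h k τ) ^ p - jj τ) / p) := by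
        set ζ : ℂ := Complex.exp (2 * Real.pi * Complex.I * β k / p) with hζd
        have hζp : ζ ^ p = 1 := by
          rw [hζd, ← Complex.exp_nat_mul, Complex.exp_eq_one_iff]
          refine ⟨β k, ?_⟩
          field_simp
        have hζI : IsIntegral ℤ ζ := IsIntegral.of_pow hp.pos (by rw [hζp]; exact isIntegral_one)
        refine ⟨fun n => (Q.coeff n : ℂ) * ζ ^ n, by simp, fun n =>
          (isIntegral_algebraMap (R := ℤ) (x := Q.coeff n)).mul (hζI.pow n), fun τ => ?_⟩
        have hh := h2 k τ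
        rw [ha1, hdp] at hh
        have hh' : (τ : ℂ) = p * (h k τ) + ((-β k : ℤ) : ℂ) := by
          push_cast
          push_cast at hh
          linear_combination -hh
        have e1 := hQ (h k τ) τ (-β k) hh'
        have hq : qq 1 (h k τ) = ζ * qq p τ := by
          unfold qq
          rw [hζd, ← Complex.exp_add]
          congr 1
          have : (h k τ : ℂ) = (τ + β k) / p := by
            rw [eq_div_iff hp0]
            push_cast at hh
            linear_combination hh
          rw [this]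
          push_cast
          field_simp
          ring
        rw [hq] at e1
        refine TCx.hs_congr e1 (fun n => ?_) ?_
        · rw [mul_pow]; ring
        · rw [mul_pow, hζp, one_mul]
      have := Lx.mul hTC hp.pos (hsubL _ _ (hhk k) (hpowL _ hjL p))
        ⟨⟨_, _, hζ⟩, (hHol k).1⟩
      have e : G k = fun τ => (jj (h k τ) - jj τ ^ p) * ((jj (h k τ) ^ p - jj τ) / p) := by
        funext τ
        simp only [G]
        ring
      rw [e]
      exact this
    · -- `a = p`, `d = 1`
      have hd1 : δ k = 1 := by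
        rw [hap] at had
        exact Nat.eq_of_mul_eq_mul_left hp.pos (by rw [had, mul_one])
      have hζ : Lau 1 p (Q.coeff 0 : ℂ) (fun τ => (jj τ ^ p - jj (h k τ)) / p) := by
        refine ⟨fun n => (Q.coeff n : ℂ), rfl, fun n =>
          (isIntegral_algebraMap (R := ℤ) (x := Q.coeff n)), fun τ => ?_⟩
        have hh := h2 k τ
        rw [hap, hd1] at hh
        exact hQ τ (h k τ) (β k) (by push_cast at hh; linear_combination hh)
      have hζ' := lau_up hζ p hp.pos
      have e2 : Lx p (fun τ => (jj τ ^ p - jj (h k τ)) / p) := ⟨⟨_, _, hζ'⟩, (hHol k).2⟩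
      have := Lx.mul hTC hp.pos (Lx.mul hTC hp.pos hneg e2)
        (hsubL _ _ (hpowL _ (hhk k) p) hjL)
      have e : G k = fun τ => (-1 : ℂ) * ((jj τ ^ p - jj (h k τ)) / p) *
          (jj (h k τ) ^ p - jj τ) := by
        funext τ
        simp only [G]
        ring
      rw [e]
      exact this
  have hperm : ∀ (p' q r s : ℤ), p' * s - q * r = 1 → ∀ τ w : ℍ,
      (w : ℂ) * (r * τ + s) = p' * τ + q → ∃ σ : Equiv.Perm ι, ∀ k, G k w = G (σ k) τ := by
    intro p' q r s hps τ w hw
    obtain ⟨σ, hσ⟩ := h3 p' q r s hps τ w hw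
    refine ⟨σ, fun k => ?_⟩
    have h5 : jj w = jj τ := hTA.1 p' q r s hps τ w hw
    simp only [G]
    rw [hσ k, h5]
  obtain ⟨k, hk⟩ := h4 a b c d hdet τ w hw
  have := integral_of_family hp.pos G hG hperm τ k
  simp only [G] at this
  rw [← hk] at this
  exact this

end Pool.Agent.NH30.KF
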