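import Mathlib

/-!
# Grids of points on systems of equations on products of projective lines (helper30)
-/

set_option autoImplicit false

open Function

namespace Pool.Agent.NH30.KF

/-- The first homogeneous coordinate of a point of the projective line `Option k`. -/
def num {k : Type*} [CommRing k] : Option k → k
  | none => 1
  | some x => x

/-- The second homogeneous coordinate of a point of the projective line `Option k`. -/
def den {k : Type*} [CommRing k] : Option k → k
  | none => 0
  | some _ => 1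

/-- The value of the multihomogeneous form with the coefficients `F` at a point of a product of
projective lines. -/
def evp {k : Type*} [CommRing k] {n d : ℕ} (F : (Fin n → Fin (d + 1)) → k) (X : Fin n → Option k) :
    k :=
  ∑ e : Fin n → Fin (d + 1), F e * ∏ i, (num (X i) ^ (e i : ℕ) * den (X i) ^ (d - (e i : ℕ)))

/-- The value at `(x, y)` of a polynomial in two variables with integral coefficients. -/
noncomputable def ev2 {k : Type*} [CommRing k] (G : Polynomial (Polynomial ℤ)) (x y : k) : k :=
  G.eval₂ (Polynomial.eval₂RingHom (Int.castRingHom k) x) y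

/-- Two points of the projective line `Option k` are linked by `G`: both are the point at infinity,
or both are finite and `G (x, y) = G (y, x) = 0`. -/
def Lk {k : Type*} [CommRing k] (G : Polynomial (Polynomial ℤ)) (X Y : Option k) : Prop :=
  (X = none ∧ Y = none) ∨ ∃ x y, X = some x ∧ Y = some y ∧ ev2 G x y = 0 ∧ ev2 G y x = 0

/-- A grid of points for the system of forms `F`, see the explanations in the results files. -/
def HasGrid (k : Type) [Field k] {n d : ℕ} {κ : Type} (G : Polynomial (Polynomial ℤ))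
    (F : κ → (Fin n → Fin (d + 1)) → k)
    (ρ : Fin n → Fin n) (I : Finset (Fin n)) (h : Fin n → Polynomial ℤ) (L : ℕ) : Prop :=
  ∃ B : (Fin n → Fin (L + 1)) → Fin n → Option k,
    (∀ a j, evp (F j) (B a) = 0) ∧
    (∀ a, ∀ i ∈ I, ∃ x, B a i = some x ∧ (h i).eval₂ (Int.castRingHom k) x = 0) ∧
    ∀ a a' i, ρ i ≠ i → (∀ j, j ≠ i → a' j = a j) → (a' i : ℕ) = a i + 1 →
      Lk G (B a' i) (B a (ρ i))

/-! ### ring homomorphisms -/

theorem num_map {k k' : Type*} [CommRing k] [CommRing k'] (f : k →+* k') (x : Option k) :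
    num (x.map f) = f (num x) := by
  cases x <;> simp [num]

theorem den_map {k k' : Type*} [CommRing k] [CommRing k'] (f : k →+* k') (x : Option k) :
    den (x.map f) = f (den x) := by
  cases x <;> simp [den]

theorem evp_map {k k' : Type*} [CommRing k] [CommRing k'] (f : k →+* k') {n d : ℕ}
    (F : (Fin n → Fin (d + 1)) → k) (X : Fin n → Option k) :
    evp (fun e => f (F e)) (fun i => (X i).map f) = f (evp F X) := by
  unfold evp
  rw [map_sum]
  refine Finset.sum_congr rfl fun e _ => ?_
  rw [map_mul, map_prod]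
  congr 1
  refine Finset.prod_congr rfl fun i _ => ?_
  rw [map_mul, map_pow, map_pow, num_map, den_map]

theorem ev2_map {k k' : Type*} [CommRing k] [CommRing k'] (f : k →+* k')
    (G : Polynomial (Polynomial ℤ)) (x y : k) : f (ev2 G x y) = ev2 G (f x) (f y) := by
  unfold ev2
  rw [Polynomial.hom_eval₂]
  congr 1
  refine Polynomial.ringHom_ext (fun m => ?_) ?_
  · simp
  · simp

theorem Lk.map {k k' : Type*} [CommRing k] [CommRing k'] (f : k →+* k')
    {G : Polynomial (Polynomial ℤ)} {X Y : Option k} (h : Lk G X Y) :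
    Lk G (X.map f) (Y.map f) := by
  rcases h with ⟨rfl, rfl⟩ | ⟨x, y, rfl, rfl, h1, h2⟩
  · exact Or.inl ⟨rfl, rfl⟩
  · refine Or.inr ⟨f x, f y, rfl, rfl, ?_, ?_⟩
    · rw [← ev2_map, h1, map_zero]
    · rw [← ev2_map, h2, map_zero]

/-! ### reduction -/

section red

variable {L : Type} [Field L] (A : ValuationSubring L)

open Classical in
/-- The reduction of the projective line. -/
noncomputable def red : Option L → Option (IsLocalRing.ResidueField A)
  | none => none
  | some x => if h : x ∈ A then some (IsLocalRing.residue A ⟨x, h⟩) else none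

theorem red_mem {x : L} (h : x ∈ A) : red A (some x) = some (IsLocalRing.residue A ⟨x, h⟩) := by
  simp [red, h]

theorem red_not_mem {x : L} (h : x ∉ A) : red A (some x) = none := by
  simp [red, h]

/-- normalized homogeneous coordinates -/
theorem red_coords (x : Option L) : ∃ (l : L) (a b : A), num x = l * a ∧ den x = l * b ∧ l ≠ 0 ∧
    IsLocalRing.residue A a = num (red A x) ∧ IsLocalRing.residue A b = den (red A x) := by
  cases x with
  | none => exact ⟨1, 1, 0, by simp [num], by simp [den], one_ne_zero, by simp [red, num],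
      by simp [red, den]⟩
  | some x =>
    by_cases h : x ∈ A
    · exact ⟨1, ⟨x, h⟩, 1, by simp [num], by simp [den], one_ne_zero, by simp [red, h, num],
        by simp [red, h, den]⟩
    · have hx0 : x ≠ 0 := fun h0 => h (h0 ▸ A.zero_mem)
      have hinv : x⁻¹ ∈ A := (A.mem_or_inv_mem x).resolve_left h
      refine ⟨x, 1, ⟨x⁻¹, hinv⟩, by simp [num], by simp [den, hx0], hx0, by simp [red, h, num],
        ?_⟩
      have h1 : IsLocalRing.residue A ⟨x⁻¹, hinv⟩ = 0 := by
        rw [IsLocalRing.residue_eq_zero_iff, IsLocalRing.mem_maximalIdeal, mem_nonunits_iff]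
        intro hu
        obtain ⟨y, hy⟩ := hu.exists_right_inv
        apply h
        have : x⁻¹ * (y : L) = 1 := by
          have := congrArg (fun z : A => (z : L)) hy
          simpa using this
        have h2 : (y : L) = x := by
          field_simp at this
          exact this
        rw [← h2]
        exact y.2
      rw [h1]
      simp [red, h, den]

theorem evp_red {n d : ℕ} (F : (Fin n → Fin (d + 1)) → A) (X : Fin n → Option L)
    (h : evp (fun e => (F e : L)) X = 0) :
    evp (fun e => IsLocalRing.residue A (F e)) (fun i => red A (X i)) = 0 := by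
  choose l a b h1 h2 h3 h4 h5 using fun i => red_coords A (X i)
  have e1 : evp (fun e => (F e : L)) X = (∏ i, l i ^ d) *
      ((∑ e : Fin n → Fin (d + 1), F e * ∏ i, (a i ^ (e i : ℕ) * b i ^ (d - (e i : ℕ))) : A) : L) := by
    unfold evp
    push_cast
    rw [Finset.mul_sum]
    refine Finset.sum_congr rfl fun e _ => ?_
    rw [mul_left_comm]
    congr 1
    rw [← Finset.prod_mul_distrib]
    refine Finset.prod_congr rfl fun i _ => ?_
    rw [h1 i, h2 i, mul_pow, mul_pow]
    have : l i ^ d = l i ^ (e i : ℕ) * l i ^ (d - (e i : ℕ)) := by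
      rw [← pow_add]
      congr 1
      have := (e i).2
      omega
    rw [this]
    ring
  rw [h] at e1
  have e2 : (∑ e : Fin n → Fin (d + 1), F e * ∏ i, (a i ^ (e i : ℕ) * b i ^ (d - (e i : ℕ))) : A)
      = 0 := by
    have h6 : (∏ i, l i ^ d) ≠ 0 := Finset.prod_ne_zero_iff.2 fun i _ => pow_ne_zero _ (h3 i)
    have h7 := (mul_eq_zero.1 e1.symm).resolve_left h6
    exact_mod_cast h7
  have e3 := congrArg (IsLocalRing.residue A) e2
  rw [map_zero, map_sum] at e3
  rw [← e3]
  unfold evp
  refine Finset.sum_congr rfl fun e _ => ?_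
  rw [map_mul, map_prod]
  congr 1
  refine Finset.prod_congr rfl fun i _ => ?_
  rw [map_mul, map_pow, map_pow, h4 i, h5 i]

/-- roots of monic polynomials reduce to roots -/
theorem root_red {h : Polynomial ℤ} (hh : h.Monic) {x : L}
    (hx : h.eval₂ (Int.castRingHom L) x = 0) :
    ∃ y, red A (some x) = some y ∧
      h.eval₂ (Int.castRingHom (IsLocalRing.ResidueField A)) y = 0 := by
  have hint : IsIntegral A x := by
    refine ⟨h.map (Int.castRingHom A), hh.map _, ?_⟩
    rw [Polynomial.eval₂_map]
    have e : (algebraMap A L).comp (Int.castRingHom A) = Int.castRingHom L := RingHom.ext_int _ _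
    rw [e]
    exact hx
  obtain ⟨y, hy⟩ := IsIntegrallyClosed.isIntegral_iff.1 hint
  have hxA : x ∈ A := hy ▸ y.2
  refine ⟨_, red_mem A hxA, ?_⟩
  have h1 : h.eval₂ (Int.castRingHom A) (⟨x, hxA⟩ : A) = 0 := by
    have h2 : A.subtype (h.eval₂ (Int.castRingHom A) (⟨x, hxA⟩ : A)) = 0 := by
      rw [Polynomial.hom_eval₂]
      have e : A.subtype.comp (Int.castRingHom A) = Int.castRingHom L := RingHom.ext_int _ _
      rw [e]
      exact hx
    exact Subtype.ext h2
  have h3 := congrArg (IsLocalRing.residue A) h1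
  rw [Polynomial.hom_eval₂, map_zero] at h3
  have e : (IsLocalRing.residue A).comp (Int.castRingHom A) =
      Int.castRingHom (IsLocalRing.ResidueField A) := RingHom.ext_int _ _
  rw [e] at h3
  exact h3

theorem mem_of_ev2 {G : Polynomial (Polynomial ℤ)} (hG : G.Monic) {x y : L} (hx : x ∈ A)
    (h : ev2 G x y = 0) : y ∈ A := by
  have hint : IsIntegral A y := by
    refine ⟨G.map (Polynomial.eval₂RingHom (Int.castRingHom A) ⟨x, hx⟩), hG.map _, ?_⟩
    rw [Polynomial.eval₂_map]
    have e : (algebraMap A L).comp (Polynomial.eval₂RingHom (Int.castRingHom A) ⟨x, hx⟩) =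
        Polynomial.eval₂RingHom (Int.castRingHom L) x := by
      refine Polynomial.ringHom_ext (fun m => ?_) ?_
      · simp
      · simp
    rw [e]
    exact h
  obtain ⟨y', hy⟩ := IsIntegrallyClosed.isIntegral_iff.1 hint
  rw [← hy]
  exact y'.2

theorem Lk.red {G : Polynomial (Polynomial ℤ)} (hG : G.Monic) {X Y : Option L} (h : Lk G X Y) :
    Lk G (KF.red A X) (KF.red A Y) := by
  rcases h with ⟨rfl, rfl⟩ | ⟨x, y, rfl, rfl, h1, h2⟩
  · exact Or.inl ⟨rfl, rfl⟩
  · by_cases hx : x ∈ A
    · have hy := mem_of_ev2 A hG hx h1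
      rw [red_mem A hx, red_mem A hy]
      have e1 : ev2 G (⟨x, hx⟩ : A) ⟨y, hy⟩ = 0 := by
        apply Subtype.ext
        have := ev2_map A.subtype G ⟨x, hx⟩ ⟨y, hy⟩
        exact this.trans h1
      have e2 : ev2 G (⟨y, hy⟩ : A) ⟨x, hx⟩ = 0 := by
        apply Subtype.ext
        have := ev2_map A.subtype G ⟨y, hy⟩ ⟨x, hx⟩
        exact this.trans h2
      refine Or.inr ⟨_, _, rfl, rfl, ?_, ?_⟩
      · rw [← ev2_map, e1, map_zero]
      · rw [← ev2_map, e2, map_zero]
    · have hy : y ∉ A := fun hy => hx (mem_of_ev2 A hG hy h2)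
      rw [red_not_mem A hx, red_not_mem A hy]
      exact Or.inl ⟨rfl, rfl⟩

theorem HasGrid.red {n d : ℕ} {κ : Type} {G : Polynomial (Polynomial ℤ)} (hG : G.Monic)
    {F : κ → (Fin n → Fin (d + 1)) → A}
    {ρ : Fin n → Fin n} {I : Finset (Fin n)} {h : Fin n → Polynomial ℤ} (hh : ∀ i ∈ I, (h i).Monic)
    {N : ℕ} (H : HasGrid L G (fun j e => (F j e : L)) ρ I h N) :
    HasGrid (IsLocalRing.ResidueField A) G (fun j e => IsLocalRing.residue A (F j e)) ρ I h N := by
  obtain ⟨B, h1, h2, h3⟩ := H
  refine ⟨fun a i => KF.red A (B a i), fun a j => evp_red A (F j) (B a) (h1 a j), ?_, ?_⟩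
  · intro a i hi
    obtain ⟨x, hx, hx'⟩ := h2 a i hi
    beta_reduce
    rw [hx]
    exact root_red A (hh i hi) hx'
  · intro a a' i hi hj hai
    exact (h3 a a' i hi hj hai).red A hG

end red

/-! ### places -/

/-- a valuation ring of `L` with given centre -/
theorem exists_place {Λ L k : Type} [CommRing Λ] [Field L] [Field k] (f : Λ →+* L) (g : Λ →+* k)
    (h : ∀ a, f a = 0 → g a = 0) :
    ∃ A : ValuationSubring L, ∃ hA : ∀ a, f a ∈ A,
      ∀ a, IsLocalRing.residue A ⟨f a, hA a⟩ = 0 ↔ g a = 0 := by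
  classical
  let K := RingHom.ker g
  have hK : K.IsPrime := RingHom.ker_isPrime g
  let P : Ideal f.range := Ideal.map f.rangeRestrict K
  have hker : RingHom.ker f.rangeRestrict ≤ K := by
    intro a ha
    rw [RingHom.mem_ker] at ha ⊢
    exact h a (congrArg Subtype.val ha)
  have hP : P.IsPrime := Ideal.map_isPrime_of_surjective f.rangeRestrict_surjective hker
  obtain ⟨V, hV⟩ := (LocalSubring.ofPrime f.range P).exists_le_valuationSubring
  have hmem : ∀ z : Λ, f z ∈ V := fun z =>
    hV.1 (LocalSubring.le_ofPrime _ _ ⟨z, rfl⟩)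
  refine ⟨V, hmem, fun z => ?_⟩
  have h1 : IsUnit (algebraMap f.range (LocalSubring.ofPrime f.range P).toSubring
      (f.rangeRestrict z)) ↔ f.rangeRestrict z ∈ P.primeCompl :=
    IsLocalization.AtPrime.isUnit_to_map_iff _ P _
  have h2 : f.rangeRestrict z ∈ P.primeCompl ↔ g z ≠ 0 := by
    rw [Ideal.mem_primeCompl_iff, not_iff_not]
    constructor
    · intro hz
      have h3 : z ∈ Ideal.comap f.rangeRestrict P := hz
      rw [Ideal.comap_map_of_surjective f.rangeRestrict f.rangeRestrict_surjective] at h3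
      have h4 : K ⊔ Ideal.comap f.rangeRestrict ⊥ ≤ K := sup_le le_rfl hker
      exact h4 h3
    · intro hz
      exact Ideal.mem_map_of_mem _ hz
  have h4 : IsUnit (⟨f z, hmem z⟩ : V) ↔
      IsUnit (algebraMap f.range (LocalSubring.ofPrime f.range P).toSubring
        (f.rangeRestrict z)) := by
    have h5 : (⟨f z, hmem z⟩ : V) = Subring.inclusion hV.1
        (algebraMap f.range (LocalSubring.ofPrime f.range P).toSubring (f.rangeRestrict z)) := rfl
    constructor
    · intro h
      exact hV.2.1 _ (h5 ▸ h)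
    · intro h
      rw [h5]
      exact h.map (Subring.inclusion hV.1)
  rw [IsLocalRing.residue_eq_zero_iff, IsLocalRing.mem_maximalIdeal, mem_nonunits_iff, h4, h1, h2,
    not_not]

/-! ### transfer to the complex numbers -/

theorem grid_transfer {n d : ℕ} {κ : Type} (G : Polynomial (Polynomial ℤ))
    (F : κ → (Fin n → Fin (d + 1)) → ℤ)
    (ρ : Fin n → Fin n) (I : Finset (Fin n)) (h : Fin n → Polynomial ℤ) (N : ℕ)
    (K : Type) [Field K] [CharZero K]
    (H : HasGrid K G (fun j e => ((F j e : ℤ) : K)) ρ I h N) :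
    HasGrid ℂ G (fun j e => ((F j e : ℤ) : ℂ)) ρ I h N := by
  classical
  obtain ⟨B, h1, h2, h3⟩ := H
  let σ := (Fin n → Fin (N + 1)) × Fin n
  let y : σ → K := fun v => num (B v.1 v.2)
  let J : Ideal (MvPolynomial σ ℚ) :=
    RingHom.ker (MvPolynomial.aeval y : MvPolynomial σ ℚ →ₐ[ℚ] K)
  have hJ : J ≠ ⊤ := RingHom.ker_ne_top _
  obtain ⟨M, hM, hJM⟩ := Ideal.exists_le_maximal J hJ
  letI : Field (MvPolynomial σ ℚ ⧸ M) := Ideal.Quotient.field M
  have hfin : Module.Finite ℚ (MvPolynomial σ ℚ ⧸ M) :=
    finite_of_finite_type_of_isJacobsonRing ℚ _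
  let φ : (MvPolynomial σ ℚ ⧸ M) →ₐ[ℚ] ℂ := IsAlgClosed.lift
  let ψ : MvPolynomial σ ℚ →+* ℂ := (φ.comp (Ideal.Quotient.mkₐ ℚ M)).toRingHom
  let A : MvPolynomial σ ℚ →+* K := (MvPolynomial.aeval y : MvPolynomial σ ℚ →ₐ[ℚ] K).toRingHom
  have hker : ∀ P, A P = 0 → ψ P = 0 := by
    intro P hP
    have e1 : P ∈ M := hJM hP
    show φ (Ideal.Quotient.mk M P) = 0
    rw [Ideal.Quotient.eq_zero_iff_mem.2 e1, map_zero]
  -- the grid over the polynomial ring
  let C : (Fin n → Fin (N + 1)) → Fin n → Option (MvPolynomial σ ℚ) := fun a i =>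
    (B a i).map fun _ => MvPolynomial.X (a, i)
  have hC : ∀ a i, (C a i).map A = B a i := by
    intro a i
    simp only [C]
    cases hB : B a i with
    | none => rfl
    | some x =>
      have e1 : A (MvPolynomial.X (a, i)) = y (a, i) := MvPolynomial.aeval_X _ _
      simp only [Option.map_some, e1, y, hB, num]
  refine ⟨fun a i => (C a i).map ψ, ?_, ?_, ?_⟩
  · intro a j
    have e1 := evp_map A (fun e => ((F j e : ℤ) : MvPolynomial σ ℚ)) (C a)
    have e2 := evp_map ψ (fun e => ((F j e : ℤ) : MvPolynomial σ ℚ)) (C a)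
    simp only [hC, map_intCast] at e1 e2
    rw [e2]
    apply hker
    rw [← e1]
    exact h1 a j
  · intro a i hi
    obtain ⟨x, hx, hx0⟩ := h2 a i hi
    refine ⟨ψ (MvPolynomial.X (a, i)), by simp [C, hx], ?_⟩
    have e1 : A (MvPolynomial.X (a, i)) = x := by
      have : A (MvPolynomial.X (a, i)) = y (a, i) := MvPolynomial.aeval_X _ _
      rw [this]
      simp only [y, hx, num]
    have e2 : A ((h i).eval₂ (Int.castRingHom _) (MvPolynomial.X (a, i))) = 0 := by
      rw [Polynomial.hom_eval₂, e1]
      have : A.comp (Int.castRingHom _) = Int.castRingHom K := RingHom.ext_int _ _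
      rw [this]
      exact hx0
    have e3 := hker _ e2
    rw [Polynomial.hom_eval₂] at e3
    have : ψ.comp (Int.castRingHom _) = Int.castRingHom ℂ := RingHom.ext_int _ _
    rw [this] at e3
    exact e3
  · intro a a' i hi hj hai
    have hyA : ∀ a i, A (MvPolynomial.X (a, i)) = y (a, i) := fun a i =>
      MvPolynomial.aeval_X _ _
    show Lk G ((C a' i).map ψ) ((C a (ρ i)).map ψ)
    simp only [C]
    rcases h3 a a' i hi hj hai with ⟨e1, e2⟩ | ⟨x, x', e1, e2, e3, e4⟩
    · rw [e1, e2]
      exact Or.inl ⟨rfl, rfl⟩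
    · rw [e1, e2]
      have f1 : A (MvPolynomial.X (a', i)) = x := by
        rw [hyA]
        simp only [y, e1, num]
      have f2 : A (MvPolynomial.X (a, ρ i)) = x' := by
        rw [hyA]
        simp only [y, e2, num]
      refine Or.inr ⟨_, _, rfl, rfl, ?_, ?_⟩
      · rw [← ev2_map]
        apply hker
        rw [ev2_map, f1, f2, e3]
      · rw [← ev2_map]
        apply hker
        rw [ev2_map, f1, f2, e4]

end Pool.Agent.NH30.KF
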