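import Pool.Agent.NH30.KF.Fam
import Pool.Agent.NH30.KF.Grid

/-!
# Frobenius and isogenies of degree a power of `p` (helper30)
-/

set_option autoImplicit false

open Function UpperHalfPlane

namespace Pool.Agent.NH30.KF

open H294ZP

section fe

variable {κ : Type*} [Field κ] (p : ℕ) [ExpChar κ p]

/-- the action of the iterated Frobenius on the projective line -/
def fr (u : ℕ) : Option κ → Option κ := Option.map (iterateFrobenius κ p u)

theorem fr_zero (x : Option κ) : fr p 0 x = x := by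
  cases x <;> simp [fr, iterateFrobenius_zero]

theorem fr_add (u w : ℕ) (x : Option κ) : fr p (u + w) x = fr p u (fr p w x) := by
  cases x <;> simp [fr, iterateFrobenius_add]

/-- Frobenius equivalence -/
def FEq (x y : Option κ) : Prop := ∃ u w : ℕ, fr p u x = fr p w y

theorem FEq.refl (x : Option κ) : FEq p x x := ⟨0, 0, rfl⟩

theorem FEq.symm {x y : Option κ} (h : FEq p x y) : FEq p y x := by
  obtain ⟨u, w, h⟩ := h
  exact ⟨w, u, h.symm⟩

theorem FEq.trans {x y z : Option κ} (h : FEq p x y) (h' : FEq p y z) : FEq p x z := by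
  obtain ⟨u, w, h⟩ := h
  obtain ⟨u', w', h'⟩ := h'
  refine ⟨u' + u, w + w', ?_⟩
  rw [fr_add, h, ← fr_add, add_comm u' w, fr_add, h', fr_add]

theorem iterateFrobenius_int (u : ℕ) (m : ℤ) : iterateFrobenius κ p u (m : κ) = m := map_intCast _ _

/-- The conjugates of a point under powers of Frobenius form grids. -/
theorem grid_of_point {κ : Type} [Field κ] (p : ℕ) [ExpChar κ p] {n d : ℕ} {ι : Type}
    (G : Polynomial (Polynomial ℤ))
    (F : ι → (Fin n → Fin (d + 1)) → κ) (hF : ∀ j e, ∃ m : ℤ, F j e = m)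
    (ρ : Fin n → Fin n) (I : Finset (Fin n)) (h : Fin n → Polynomial ℤ) (P : Fin n → Option κ)
    (h1 : ∀ j, evp (F j) P = 0)
    (h2 : ∀ i ∈ I, ∃ u x, fr p u (P i) = some x ∧ (h i).eval₂ (Int.castRingHom κ) x = 0)
    (h3 : ∀ i, ρ i ≠ i → ∃ y, Lk G (P i) y ∧ FEq p y (P (ρ i))) (L : ℕ) :
    HasGrid κ G F ρ I h L := by
  classical
  have h3' : ∀ i, ∃ (y : Option κ) (u w : ℕ), ρ i ≠ i → Lk G (P i) y ∧
      fr p u y = fr p w (P (ρ i)) := by
    intro i
    by_cases hi : ρ i = i
    · exact ⟨none, 0, 0, fun h => absurd hi h⟩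
    · obtain ⟨y, hy, u, w, huw⟩ := h3 i hi
      exact ⟨y, u, w, fun _ => ⟨hy, huw⟩⟩
  choose y u w huw using h3'
  have h2' : ∀ i, ∃ u' : ℕ, i ∈ I → ∃ x, fr p u' (P i) = some x ∧
      (h i).eval₂ (Int.castRingHom κ) x = 0 := by
    intro i
    by_cases hi : i ∈ I
    · obtain ⟨u', x, hx⟩ := h2 i hi
      exact ⟨u', fun _ => ⟨x, hx⟩⟩
    · exact ⟨0, fun h => absurd h hi⟩
  choose u' hu' using h2'
  let O : ℕ := ∑ i, u' i
  let E : (Fin n → Fin (L + 1)) → ℕ := fun a =>
    O + ∑ j, ((a j : ℕ) * u j + (L - (a j : ℕ)) * w j)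
  refine ⟨fun a i => fr p (E a) (P i), ?_, ?_, ?_⟩
  · intro a j
    have e1 := evp_map (iterateFrobenius κ p (E a)) (F j) P
    rw [h1 j, map_zero] at e1
    have e2 : (fun e => iterateFrobenius κ p (E a) (F j e)) = F j := by
      funext e
      obtain ⟨m, hm⟩ := hF j e
      rw [hm, iterateFrobenius_int]
    rw [e2] at e1
    exact e1
  · intro a i hi
    obtain ⟨x, hx, hx0⟩ := hu' i hi
    have hle : u' i ≤ E a := by
      have h5 : u' i ≤ O := Finset.single_le_sum (f := u') (fun _ _ => Nat.zero_le _)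
        (Finset.mem_univ i)
      exact h5.trans (Nat.le_add_right _ _)
    obtain ⟨m, hm⟩ := Nat.exists_eq_add_of_le hle
    refine ⟨iterateFrobenius κ p m x, ?_, ?_⟩
    · show fr p (E a) (P i) = _
      rw [hm, add_comm, fr_add, hx]
      rfl
    · have e1 := congrArg (iterateFrobenius κ p m) hx0
      rw [Polynomial.hom_eval₂, map_zero] at e1
      have e2 : (iterateFrobenius κ p m).comp (Int.castRingHom κ) = Int.castRingHom κ :=
        RingHom.ext_int _ _
      rw [e2] at e1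
      exact e1
  · intro a a' i hρi hj hi
    have hle : (a i : ℕ) + 1 ≤ L := by
      have := (a' i).2
      omega
    -- the common part
    let M : ℕ := O + (∑ j ∈ Finset.univ.erase i, ((a j : ℕ) * u j + (L - (a j : ℕ)) * w j)) +
      ((a i : ℕ) * u i + (L - ((a i : ℕ) + 1)) * w i)
    have hE' : E a' = M + u i := by
      simp only [E, M]
      rw [← Finset.add_sum_erase _ _ (Finset.mem_univ i), hi]
      have e1 : ∑ j ∈ Finset.univ.erase i, ((a' j : ℕ) * u j + (L - (a' j : ℕ)) * w j) =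
          ∑ j ∈ Finset.univ.erase i, ((a j : ℕ) * u j + (L - (a j : ℕ)) * w j) := by
        refine Finset.sum_congr rfl fun j hj' => ?_
        rw [hj j (Finset.ne_of_mem_erase hj')]
      rw [e1]
      ring
    have hE : E a = M + w i := by
      simp only [E, M]
      rw [← Finset.add_sum_erase _ _ (Finset.mem_univ i)]
      have e2 : L - (a i : ℕ) = (L - ((a i : ℕ) + 1)) + 1 := by omega
      rw [e2]
      ring
    obtain ⟨g1, g2⟩ := huw i hρi
    show Lk G (fr p (E a') (P i)) (fr p (E a) (P (ρ i)))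
    rw [hE', hE, fr_add p M (w i), ← g2, ← fr_add]
    exact g1.map _

end fe

/-! ### isogenies -/

section iso

variable (V : ValuationSubring ℂ) (p : ℕ) [hp : Fact p.Prime]

theorem mem_of_int_adjoin {x y : ℂ} (hx : x ∈ V) (h : IsIntegral (Algebra.adjoin ℤ {x}) y) :
    y ∈ V := by
  obtain ⟨P, hP, hPe⟩ := h
  have hle : ∀ z ∈ Algebra.adjoin ℤ {x}, z ∈ V := by
    intro z hz
    induction hz using Algebra.adjoin_induction with
    | mem z hz => rw [Set.mem_singleton_iff.1 hz]; exact hx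
    | algebraMap r => exact intCast_mem V r
    | add a b _ _ ha hb => exact V.add_mem _ _ ha hb
    | mul a b _ _ ha hb => exact V.mul_mem _ _ ha hb
  let φ : Algebra.adjoin ℤ {x} →+* V :=
    (algebraMap (Algebra.adjoin ℤ {x}) ℂ).codRestrict V.toSubring (fun a => hle a a.2)
  have h1 : IsIntegral V y := by
    refine ⟨P.map φ, hP.map φ, ?_⟩
    rw [Polynomial.eval₂_map]
    exact hPe
  obtain ⟨y', hy⟩ := IsIntegrallyClosed.isIntegral_iff.1 h1
  rw [← hy]
  exact y'.2

theorem adj_rel {τ w : ℍ} {a b c d : ℤ}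
    (hw : (w : ℂ) * (c * τ + d) = a * τ + b) :
    (τ : ℂ) * (((-c : ℤ) : ℂ) * w + ((a : ℤ) : ℂ)) = ((d : ℤ) : ℂ) * w + ((-b : ℤ) : ℂ) := by
  push_cast
  linear_combination -hw

variable [ExpChar (IsLocalRing.ResidueField V) p]

theorem feq_prime (hpV : IsLocalRing.residue V (p : V) = 0) {τ w : ℍ} {a b c d : ℤ}
    (hdet : a * d - b * c = p) (hw : (w : ℂ) * (c * τ + d) = a * τ + b) :
    FEq p (red V (some (jj τ))) (red V (some (jj w))) := by
  have hpos : (0 : ℤ) < p := by exact_mod_cast hp.out.pos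
  have hint : IsIntegral (Algebra.adjoin ℤ {jj τ}) (jj w) :=
    isogenous_integral τ w a b c d (by rw [hdet]; exact hpos) hw
  have hint' : IsIntegral (Algebra.adjoin ℤ {jj w}) (jj τ) :=
    isogenous_integral w τ d (-b) (-c) a (by linarith) (adj_rel hw)
  by_cases hτ : jj τ ∈ V
  · have hwV : jj w ∈ V := mem_of_int_adjoin V hτ hint
    rw [red_mem V hτ, red_mem V hwV]
    set x := IsLocalRing.residue V ⟨jj τ, hτ⟩
    set y := IsLocalRing.residue V ⟨jj w, hwV⟩
    have hK := mem_of_int_adjoin V hτ (kronecker p τ w a b c d hdet hw)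
    have e1 : ((⟨jj w, hwV⟩ : V) - ⟨jj τ, hτ⟩ ^ p) * ((⟨jj w, hwV⟩ : V) ^ p - ⟨jj τ, hτ⟩) =
        (p : V) * ⟨_, hK⟩ := by
      apply Subtype.ext
      push_cast
      have : (p : ℂ) ≠ 0 := by exact_mod_cast hp.out.ne_zero
      field_simp
    have e2 := congrArg (IsLocalRing.residue V) e1
    rw [map_mul, map_mul, hpV, zero_mul, map_sub, map_sub, map_pow, map_pow] at e2
    rcases mul_eq_zero.1 e2 with h | h
    · refine ⟨1, 0, ?_⟩
      have : y = x ^ p := sub_eq_zero.1 h
      simp [fr, iterateFrobenius_zero, iterateFrobenius_one, frobenius_def, this]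
    · refine ⟨0, 1, ?_⟩
      have : y ^ p = x := sub_eq_zero.1 h
      simp [fr, iterateFrobenius_zero, iterateFrobenius_one, frobenius_def, this]
  · have hwV : jj w ∉ V := fun h => hτ (mem_of_int_adjoin V h hint')
    rw [red_not_mem V hτ, red_not_mem V hwV]
    exact FEq.refl p _

/-- the upper half plane point `(a τ + b) / d` -/
theorem exists_pt (τ : ℍ) (a d : ℕ) (ha : 0 < a) (hd : 0 < d) (b : ℤ) :
    ∃ w : ℍ, (w : ℂ) * d = a * τ + b := by
  have hd0 : (d : ℂ) ≠ 0 := by exact_mod_cast hd.ne'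
  have him : 0 < (((a : ℂ) * τ + b) / d).im := by
    have e : ((a : ℂ) * τ + b) / d = ((a * (τ : ℂ).re + b) / d : ℝ) +
        ((a * (τ : ℂ).im / d : ℝ) : ℂ) * Complex.I := by
      conv_lhs => rw [← Complex.re_add_im (τ : ℂ)]
      push_cast
      field_simp
      ring
    rw [e]
    have h1 : (0 : ℝ) < a := by exact_mod_cast ha
    have h2 : (0 : ℝ) < d := by exact_mod_cast hd
    have h3 : 0 < (τ : ℂ).im := τ.2
    have h4 : (0 : ℝ) < a * (τ : ℂ).im / d := by positivity
    simpa using h4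
  refine ⟨⟨_, him⟩, ?_⟩
  show ((a : ℂ) * τ + b) / d * d = _
  rw [div_mul_cancel₀ _ hd0]

theorem feq_upper (hpV : IsLocalRing.residue V (p : V) = 0) : ∀ (k : ℕ) (a d : ℕ) (b : ℤ)
    (τ w : ℍ), a * d = p ^ k → (w : ℂ) * d = a * τ + b →
    FEq p (red V (some (jj τ))) (red V (some (jj w))) := by
  have hpp := hp.out
  intro k
  induction k with
  | zero =>
    intro a d b τ w had hw
    have ha : a = 1 := Nat.eq_one_of_mul_eq_one_right (by simpa using had)
    have hd : d = 1 := Nat.eq_one_of_mul_eq_one_left (by simpa using had)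
    subst ha hd
    have : jj w = jj τ := hTA.1 1 b 0 1 (by norm_num) τ w (by
      push_cast at hw ⊢
      linear_combination hw)
    rw [this]
    exact FEq.refl p _
  | succ k ih =>
    intro a d b τ w had hw
    have ha0 : 0 < a := Nat.pos_of_ne_zero (by
      rintro rfl
      simp only [zero_mul, mul_zero] at had
      exact (pow_pos hpp.pos (k + 1)).ne had)
    have hd0 : 0 < d := Nat.pos_of_ne_zero (by
      rintro rfl
      simp only [zero_mul, mul_zero] at had
      exact (pow_pos hpp.pos (k + 1)).ne had)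
    by_cases hpa : p ∣ a
    · obtain ⟨a', rfl⟩ := hpa
      obtain ⟨τ₁, hτ₁⟩ := exists_pt τ p 1 hpp.pos one_pos 0
      have h1 : FEq p (red V (some (jj τ))) (red V (some (jj τ₁))) := by
        refine feq_prime V p hpV (a := p) (b := 0) (c := 0) (d := 1) (by ring) ?_
        push_cast at hτ₁ ⊢
        linear_combination hτ₁
      refine h1.trans p (ih a' d b τ₁ w ?_ ?_)
      · apply Nat.eq_of_mul_eq_mul_left hpp.pos
        rw [← mul_assoc, had, pow_succ]
        ring
      · push_cast at hτ₁ hw ⊢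
        linear_combination hw - (a' : ℂ) * hτ₁
    · have hdvd : a ∣ p ^ (k + 1) := Dvd.intro _ had
      obtain ⟨i, hi, hai⟩ := (Nat.dvd_prime_pow hpp).1 hdvd
      have hi0 : i = 0 := by
        rcases Nat.eq_zero_or_pos i with h | h
        · exact h
        · exact absurd (hai ▸ dvd_pow_self p h.ne') hpa
      rw [hi0, pow_zero] at hai
      subst hai
      rw [one_mul] at had
      have hdd : d = p * p ^ k := by rw [had, pow_succ]; ring
      obtain ⟨τ₁, hτ₁⟩ := exists_pt τ 1 p one_pos hpp.pos b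
      have h1 : FEq p (red V (some (jj τ))) (red V (some (jj τ₁))) := by
        refine feq_prime V p hpV (a := 1) (b := b) (c := 0) (d := p) (by ring) ?_
        push_cast at hτ₁ ⊢
        linear_combination hτ₁
      refine h1.trans p (ih 1 (p ^ k) 0 τ₁ w (by ring) ?_)
      have hp0 : (p : ℂ) ≠ 0 := by exact_mod_cast hpp.ne_zero
      apply mul_right_cancel₀ hp0
      rw [hdd] at hw
      push_cast at hτ₁ hw ⊢
      linear_combination hw - hτ₁

/-- isogenies of degree a power of `p` -/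
theorem feq_pow (hpV : IsLocalRing.residue V (p : V) = 0) (k : ℕ) {τ w : ℍ} {a b c d : ℤ}
    (hdet : a * d - b * c = (p : ℤ) ^ k) (hw : (w : ℂ) * (c * τ + d) = a * τ + b) :
    FEq p (red V (some (jj τ))) (red V (some (jj w))) := by
  have hpp := hp.out
  obtain ⟨ι, _, _, α, δ, β, h, h1, h2, h3, h4⟩ := hTF (p ^ k) (pow_pos hpp.pos k)
  obtain ⟨i, hi⟩ := h4 a b c d (by rw [hdet]; push_cast; rfl) τ w hw
  rw [hi]
  exact feq_upper V p hpV k (α i) (δ i) (β i) τ (h i τ) (h1 i).2.2 (h2 i τ)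

/-- A cyclic isogeny of degree `N p ^ k` as a composition. -/
theorem feq_mixed_upper (hpV : IsLocalRing.residue V (p : V) = 0) (N : ℕ) (hN : 0 < N) :
    ∀ (k : ℕ) (a d : ℕ) (b : ℤ) (τ w : ℍ), a * d = N * p ^ k → (w : ℂ) * d = a * τ + b →
    ∃ (ζ : ℍ) (a' d' : ℕ) (b' : ℤ), FEq p (red V (some (jj τ))) (red V (some (jj ζ))) ∧
      a' * d' = N ∧ (w : ℂ) * d' = a' * ζ + b' := by
  have hpp := hp.out
  intro k
  induction k with
  | zero =>
    intro a d b τ w had hw
    exact ⟨τ, a, d, b, FEq.refl p _, by simpa using had, hw⟩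
  | succ k ih =>
    intro a d b τ w had hw
    have hpos : 0 < N * p ^ (k + 1) := Nat.mul_pos hN (pow_pos hpp.pos _)
    by_cases hpa : p ∣ a
    · obtain ⟨a', rfl⟩ := hpa
      obtain ⟨τ₁, hτ₁⟩ := exists_pt τ p 1 hpp.pos one_pos 0
      have h1 : FEq p (red V (some (jj τ))) (red V (some (jj τ₁))) := by
        refine feq_prime V p hpV (a := p) (b := 0) (c := 0) (d := 1) (by ring) ?_
        push_cast at hτ₁ ⊢
        linear_combination hτ₁
      obtain ⟨ζ, a₂, d₂, b₂, h2, h3, h4⟩ := ih a' d b τ₁ w (by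
        apply Nat.eq_of_mul_eq_mul_left hpp.pos
        rw [← mul_assoc, had, pow_succ]
        ring) (by
        push_cast at hτ₁ hw ⊢
        linear_combination hw - (a' : ℂ) * hτ₁)
      exact ⟨ζ, a₂, d₂, b₂, h1.trans p h2, h3, h4⟩
    · have hpd : p ∣ d := by
        have h5 : p ∣ a * d := by
          rw [had, pow_succ]
          exact ⟨N * p ^ k, by ring⟩
        exact (hpp.dvd_mul.1 h5).resolve_left hpa
      obtain ⟨d', rfl⟩ := hpd
      have hcop : IsCoprime (a : ℤ) (p : ℤ) := by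
        rw [Nat.isCoprime_iff_coprime]
        exact ((Nat.Prime.coprime_iff_not_dvd hpp).2 hpa).symm
      obtain ⟨s, t, hst⟩ := hcop
      obtain ⟨τ₁, hτ₁⟩ := exists_pt τ 1 p one_pos hpp.pos (s * b)
      have h1 : FEq p (red V (some (jj τ))) (red V (some (jj τ₁))) := by
        refine feq_prime V p hpV (a := 1) (b := s * b) (c := 0) (d := p) (by ring) ?_
        push_cast at hτ₁ ⊢
        linear_combination hτ₁
      have hp0 : (p : ℂ) ≠ 0 := by exact_mod_cast hpp.ne_zero
      obtain ⟨ζ, a₂, d₂, b₂, h2, h3, h4⟩ := ih a d' (t * b) τ₁ w (by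
        apply Nat.eq_of_mul_eq_mul_left hpp.pos
        rw [mul_left_comm, had, pow_succ]
        ring) (by
        have hst' : (s : ℂ) * a + t * p = 1 := by exact_mod_cast hst
        apply mul_right_cancel₀ hp0
        push_cast at hτ₁ hw ⊢
        linear_combination hw - (a : ℂ) * hτ₁ - (b : ℂ) * hst')
      exact ⟨ζ, a₂, d₂, b₂, h1.trans p h2, h3, h4⟩

/-- isogenies of degree `N p ^ k` -/
theorem feq_mixed (hpV : IsLocalRing.residue V (p : V) = 0) (N : ℕ) (hN : 0 < N) (k : ℕ)
    {τ w : ℍ} {a b c d : ℤ}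
    (hdet : a * d - b * c = N * (p : ℤ) ^ k) (hw : (w : ℂ) * (c * τ + d) = a * τ + b) :
    ∃ (ζ : ℍ) (a' b' c' d' : ℤ), FEq p (red V (some (jj τ))) (red V (some (jj ζ))) ∧
      a' * d' - b' * c' = N ∧ ∃ w' : ℍ, jj w' = jj w ∧ (w' : ℂ) * (c' * ζ + d') = a' * ζ + b' := by
  have hpp := hp.out
  have hpos : 0 < N * p ^ k := Nat.mul_pos hN (pow_pos hpp.pos _)
  obtain ⟨ι, _, _, α, δ, β, h, h1, h2, h3, h4⟩ := hTF (N * p ^ k) hpos
  obtain ⟨i, hi⟩ := h4 a b c d (by rw [hdet]; push_cast; rfl) τ w hw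
  obtain ⟨ζ, a', d', b', g1, g2, g3⟩ := feq_mixed_upper V p hpV N hN k (α i) (δ i) (β i) τ (h i τ)
    (h1 i).2.2 (h2 i τ)
  refine ⟨ζ, a', b', 0, d', g1, ?_, h i τ, hi.symm, ?_⟩
  · rw [mul_zero, sub_zero]
    exact_mod_cast g2
  · push_cast
    linear_combination g3

end iso

end Pool.Agent.NH30.KF
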