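import Pool.Agent.NH30.KF.Fam
import Pool.Agent.NH30.KF.Grid

/-!
# Modular relations with integral coefficients (helper30)
-/

set_option autoImplicit false

open Function UpperHalfPlane

namespace Pool.Agent.NH30.KF

open H294ZP H294ZP.TDaux

/-- There is a polynomial `G (X, Y)` with integral coefficients, monic in `Y`, such that
`G (j τ, j τ') = 0` for all `τ' = g τ` with `det g = N`. -/
theorem exists_modular (N : ℕ) (hN : 0 < N) : ∃ G : Polynomial (Polynomial ℤ), G.Monic ∧
    ∀ (τ w : ℍ) (a b c d : ℤ), a * d - b * c = N → (w : ℂ) * (c * τ + d) = a * τ + b →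
      ev2 G (jj τ) (jj w) = 0 := by
  classical
  obtain ⟨ι, _, _, α, δ, β, h, h1, h2, h3, h4⟩ := hTF N hN
  let U := {v : ℍ × ℍ // ∃ a b c d : ℤ, a * d - b * c = N ∧
    (v.2 : ℂ) * (c * v.1 + d) = a * v.1 + b}
  let FF := U → ℂ
  let x : FF := fun v => jj v.1.1
  let y : FF := fun v => jj v.1.2
  let φ : Polynomial ℤ →+* FF := Polynomial.eval₂RingHom (Int.castRingHom FF) x
  let _ : Algebra (Polynomial ℤ) FF := φ.toAlgebra
  have hst : IsScalarTower ℤ (Polynomial ℤ) FF :=
    IsScalarTower.of_algebraMap_eq' (RingHom.ext_int _ _)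
  have hG : ∀ k, Lx N (fun τ => jj (h k τ)) := by
    intro k
    obtain ⟨ha, hd, had⟩ := h1 k
    have := hTC.2.2.2.2 hTA.2.1 hTA.2.2 (α k) (δ k) (β k) ha hd (h k) (h2 k)
    rw [had] at this
    exact ⟨⟨_, _, this.1⟩, this.2⟩
  let F : ℍ → Polynomial ℂ := fun τ => ∏ k, (Polynomial.X - Polynomial.C (jj (h k τ)))
  have hco := coeff_prod hTC hN (fun k τ => jj (h k τ)) hG Finset.univ
  have hinv : ∀ j, Inv (fun τ => (F τ).coeff j) := by
    intro j p q r s hps τ w hw
    obtain ⟨σ, hσ⟩ := h3 p q r s hps τ w hw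
    have : F w = F τ := by
      show ∏ k, (Polynomial.X - Polynomial.C (jj (h k w))) =
        ∏ k, (Polynomial.X - Polynomial.C (jj (h k τ)))
      rw [← Equiv.prod_comp σ (fun k => (Polynomial.X - Polynomial.C (jj (h k τ))))]
      exact Finset.prod_congr rfl fun k _ => by rw [hσ k]
    show (F w).coeff j = (F τ).coeff j
    rw [this]
  have hmon : ∀ τ, (F τ).Monic := fun τ =>
    Polynomial.monic_prod_of_monic _ _ fun k _ => Polynomial.monic_X_sub_C _
  have hdeg : ∀ τ, (F τ).natDegree = Fintype.card ι := by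
    intro τ
    rw [Polynomial.natDegree_prod_of_monic _ _ fun k _ => Polynomial.monic_X_sub_C _,
      Finset.sum_congr rfl fun k _ => Polynomial.natDegree_X_sub_C _]
    simp
  -- the coefficients as functions
  let cf : ℕ → FF := fun j v => (F v.1.1).coeff j
  have hcf : ∀ j, IsIntegral (Polynomial ℤ) (cf j) := by
    intro j
    obtain ⟨⟨m, A, hL⟩, hH⟩ := hco j
    obtain ⟨P, hP1, hP2, -⟩ := hTB N hN m A _ (hinv j) hH hL
    have e : cf j = ∑ k ∈ Finset.range (P.natDegree + 1),
        (fun _ : U => P.coeff k) * x ^ k := by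
      funext v
      rw [Finset.sum_apply]
      have e1 : cf j v = P.eval (jj v.1.1) := hP2 v.1.1
      rw [e1, Polynomial.eval_eq_sum_range]
      rfl
    rw [e]
    refine IsIntegral.sum _ fun k _ => IsIntegral.mul ?_ (IsIntegral.pow ?_ _)
    · have h5 : IsIntegral ℤ (fun _ : U => P.coeff k) :=
        (hP1 k).map (Pi.constAlgHom ℤ U ℂ)
      exact h5.tower_top
    · have h5 : algebraMap (Polynomial ℤ) FF Polynomial.X = x := by
        show φ Polynomial.X = x
        simp [φ]
      rw [← h5]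
      exact isIntegral_algebraMap
  let S := integralClosure (Polynomial ℤ) FF
  let P : Polynomial FF := ∑ j ∈ Finset.range (Fintype.card ι + 1),
    Polynomial.C (cf j) * Polynomial.X ^ j
  have hPco : ∀ j, j ≤ Fintype.card ι → P.coeff j = cf j := by
    intro j hj
    simp only [P, Polynomial.finsetSum_coeff, Polynomial.coeff_C_mul_X_pow]
    rw [Finset.sum_ite_eq, if_pos (Finset.mem_range.2 (by omega))]
  have hPdeg : P.natDegree ≤ Fintype.card ι := by
    refine Polynomial.natDegree_sum_le_of_forall_le _ _ fun j hj => ?_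
    refine (Polynomial.natDegree_C_mul_X_pow_le _ _).trans ?_
    have := Finset.mem_range.1 hj
    omega
  have hPm : P.Monic := by
    refine Polynomial.monic_of_natDegree_le_of_coeff_eq_one _ hPdeg ?_
    rw [hPco _ le_rfl]
    funext v
    show (F v.1.1).coeff (Fintype.card ι) = 1
    rw [← hdeg v.1.1]
    exact hmon v.1.1
  have hPint : ∀ j, IsIntegral (Polynomial ℤ) (P.coeff j) := by
    intro j
    by_cases hj : j ≤ Fintype.card ι
    · rw [hPco j hj]
      exact hcf j
    · rw [Polynomial.coeff_eq_zero_of_natDegree_lt (by omega)]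
      exact isIntegral_zero
  have hroot : P.eval y = 0 := by
    funext v
    have e1 : P.eval y v = (F v.1.1).eval (jj v.1.2) := by
      have e2 : (Pi.evalRingHom (fun _ : U => ℂ) v) (P.eval y) =
          ∑ j ∈ Finset.range (Fintype.card ι + 1), (F v.1.1).coeff j * jj v.1.2 ^ j := by
        simp only [P, Polynomial.eval_finsetSum, Polynomial.eval_mul, Polynomial.eval_C,
          Polynomial.eval_pow, Polynomial.eval_X, map_sum, map_mul, map_pow]
        rfl
      refine e2.trans ?_
      rw [Polynomial.eval_eq_sum_range, hdeg]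
    rw [e1]
    obtain ⟨a, b, c, d, e2, e3⟩ := v.2
    obtain ⟨k, hk⟩ := h4 a b c d e2 v.1.1 v.1.2 e3
    show (∏ k, (Polynomial.X - Polynomial.C (jj (h k v.1.1)))).eval (jj v.1.2) = 0
    rw [Polynomial.eval_prod]
    exact Finset.prod_eq_zero (Finset.mem_univ k) (by rw [hk]; simp)
  have hlift : P ∈ Polynomial.lifts (algebraMap S FF) := by
    rw [Polynomial.lifts_iff_coeff_lifts]
    intro j
    exact ⟨⟨P.coeff j, hPint j⟩, rfl⟩
  obtain ⟨q, hq, -, hqm⟩ := Polynomial.lifts_and_natDegree_eq_and_monic hlift hPm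
  have hS : IsIntegral S y := ⟨q, hqm, by rw [Polynomial.eval₂_eq_eval_map, hq]; exact hroot⟩
  obtain ⟨G, hGm, hGe⟩ := isIntegral_trans (R := Polynomial ℤ) _ hS
  refine ⟨G, hGm, fun τ w a b c d hdet hw => ?_⟩
  let v : U := ⟨(τ, w), a, b, c, d, hdet, hw⟩
  have h5 := congrArg (Pi.evalRingHom (fun _ : U => ℂ) v) hGe
  rw [Polynomial.hom_eval₂, map_zero] at h5
  have e : (Pi.evalRingHom (fun _ : U => ℂ) v).comp (algebraMap (Polynomial ℤ) FF) =
      Polynomial.eval₂RingHom (Int.castRingHom ℂ) (jj τ) := by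
    refine Polynomial.ringHom_ext (fun m => ?_) ?_
    · show (Pi.evalRingHom (fun _ : U => ℂ) v) (φ (Polynomial.C m)) = _
      simp [φ]
    · show (Pi.evalRingHom (fun _ : U => ℂ) v) (φ Polynomial.X) = _
      simp [φ, x, v]
  rw [e] at h5
  exact h5

/-- One polynomial for all degrees up to `B`. -/
theorem exists_modular_le (B : ℕ) : ∃ G : Polynomial (Polynomial ℤ), G.Monic ∧
    ∀ (τ w : ℍ) (a b c d : ℤ) (N : ℕ), 0 < N → N ≤ B → a * d - b * c = N →
      (w : ℂ) * (c * τ + d) = a * τ + b → ev2 G (jj τ) (jj w) = 0 := by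
  classical
  choose G hGm hG using fun N : {N : ℕ // 0 < N} => exists_modular N.1 N.2
  let G' : ℕ → Polynomial (Polynomial ℤ) := fun N => if h : 0 < N then G ⟨N, h⟩ else 1
  refine ⟨∏ N ∈ Finset.range (B + 1), G' N, ?_, ?_⟩
  · refine Polynomial.monic_prod_of_monic _ _ fun N _ => ?_
    simp only [G']
    split_ifs with h
    · exact hGm _
    · exact Polynomial.monic_one
  · intro τ w a b c d N hN hNB hdet hw
    unfold ev2
    rw [Polynomial.eval₂_finsetProd]
    refine Finset.prod_eq_zero (Finset.mem_range.2 (Nat.lt_succ_of_le hNB)) ?_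
    simp only [G', dif_pos hN]
    exact hG ⟨N, hN⟩ τ w a b c d hdet hw

end Pool.Agent.NH30.KF
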