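import Pool.Agent.NH30.KF.Gen
import Pool.Agent.NH30.KF.Frob
import Pool.Agent.NH30.KF.Mod

/-!
# Points of intersections with special subvarieties of level a power of `p` (helper30)
-/

set_option autoImplicit false

open Function UpperHalfPlane

namespace Pool.Agent.NH30.KF

open H294ZP

theorem integral_const {h : Polynomial ℤ} (hh : h.Monic) {ζ w : ℍ} {a b c d : ℤ}
    (hζ : h.eval₂ (Int.castRingHom ℂ) (jj ζ) = 0) (hdet : 0 < a * d - b * c)
    (hw : (w : ℂ) * (c * ζ + d) = a * ζ + b) : IsIntegral ℤ (jj w) := by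
  have h1 : IsIntegral ℤ (jj ζ) := ⟨h, hh, hζ⟩
  have h2 : Algebra.IsIntegral ℤ (Algebra.adjoin ℤ {jj ζ}) :=
    Algebra.IsIntegral.adjoin (by
      intro x hx
      rw [Set.mem_singleton_iff.1 hx]
      exact h1)
  exact isIntegral_trans _ (isogenous_integral ζ w a b c d hdet hw)

theorem point_bound {Λ : Type} [CommRing Λ] [Algebra Λ ℂ]
    {p : ℕ} [hp : Fact p.Prime] (ψ : Λ →+* ZMod p) {n c d r M : ℕ} {ι : Type}
    {G : Polynomial (Polynomial ℤ)} (hGm : G.Monic)
    (hG : ∀ (τ w : ℍ) (a b c d : ℤ) (N : ℕ), 0 < N → N ≤ M → a * d - b * c = N →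
      (w : ℂ) * (c * τ + d) = a * τ + b → ev2 G (jj τ) (jj w) = 0)
    {h : Polynomial ℤ} (hh : h.Monic) (F : ι → (Fin n → Fin (d + 1)) → Λ)
    (hno : ∀ (ρ : Fin n → Fin n) (S J : Finset (Fin n)), Cond c ρ S J →
      ∃ (z : Fin n → ℤ) (L : ℕ), ∀ (k : Type) [Field k] [CharP k p],
      ¬ HasGrid k G (fun j e => ZMod.castHom (dvd_refl p) k (ψ (F j e))) ρ (S ∪ J)
        (fixPoly z h S) L)
    (cls : Fin n → Option (Fin r)) (hsurj : ∀ l, ∃ i, cls i = some l) (x : Fin n → ℂ)
    (hx : ∀ j, ∑ e : Fin n → Fin (d + 1), algebraMap Λ ℂ (F j e) * ∏ i, x i ^ (e i : ℕ) = 0)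
    (hconst : ∀ i, cls i = none → ∃ (ζ w : ℍ) (a b c d : ℤ) (k : ℕ),
      h.eval₂ (Int.castRingHom ℂ) (jj ζ) = 0 ∧ a * d - b * c = (p : ℤ) ^ k ∧
      (w : ℂ) * (c * ζ + d) = a * ζ + b ∧ x i = jj w)
    (hiso : ∀ i i' l, cls i = some l → cls i' = some l → ∃ (τ w : ℍ) (a b c d : ℤ) (N k : ℕ),
      0 < N ∧ N ≤ M ∧ a * d - b * c = N * (p : ℤ) ^ k ∧
      (w : ℂ) * (c * τ + d) = a * τ + b ∧ x i = jj τ ∧ x i' = jj w)
    (S : Finset (Fin n)) (hS : AlgebraicIndependent Λ (fun i : S => x i)) : S.card + c ≤ r := by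
  classical
  by_contra hlt
  push Not at hlt
  let Λ' := MvPolynomial S Λ
  let f : Λ' →+* ℂ := (MvPolynomial.aeval (fun i : S => x i) : Λ' →ₐ[Λ] ℂ).toRingHom
  have hf : Function.Injective f := hS
  -- the projection onto representatives
  choose rep hrep using hsurj
  let ρ : Fin n → Fin n := fun i => match cls i with
    | none => i
    | some l => rep l
  have hρnone : ∀ i, cls i = none → ρ i = i := by
    intro i hi
    simp only [ρ, hi]
  have hρsome : ∀ i l, cls i = some l → ρ i = rep l := by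
    intro i l hi
    simp only [ρ, hi]
  let J : Finset (Fin n) := Finset.univ.filter fun i => cls i = none
  have hclsρ : ∀ i, cls (ρ i) = cls i := by
    intro i
    cases hi : cls i with
    | none => rw [hρnone i hi, hi]
    | some l => rw [hρsome i l hi, hrep]
  have hSJ : Disjoint S J := by
    rw [Finset.disjoint_left]
    intro i hiS hiJ
    have hi : cls i = none := (Finset.mem_filter.1 hiJ).2
    obtain ⟨q, hqm, h1⟩ : IsIntegral ℤ (x i) := by
      obtain ⟨ζ, w, a, b, c', d', k, e1, e2, e3, e4⟩ := hconst i hi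
      rw [e4]
      exact integral_const hh e1 (by rw [e2]; exact pow_pos (by exact_mod_cast hp.out.pos) k) e3
    have h3 : f (Polynomial.eval₂ (Int.castRingHom Λ') (MvPolynomial.X ⟨i, hiS⟩) q) = 0 := by
      rw [Polynomial.hom_eval₂]
      have e1 : f.comp (Int.castRingHom Λ') = Int.castRingHom ℂ := RingHom.ext_int _ _
      have e2 : f (MvPolynomial.X ⟨i, hiS⟩) = x i := MvPolynomial.aeval_X _ _
      rw [e1, e2]
      exact h1
    have h4 : Polynomial.eval₂ (Int.castRingHom Λ') (MvPolynomial.X ⟨i, hiS⟩) q = 0 :=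
      hf (by rw [h3, map_zero])
    -- evaluate at all integers
    have hnt : Nontrivial (ZMod p) := inferInstance
    have hK : ∀ m : Polynomial (ZMod p), q.eval₂ (Int.castRingHom _) m = 0 := by
      intro m
      let g' : Λ' →+* Polynomial (ZMod p) :=
        MvPolynomial.eval₂Hom ((Polynomial.C).comp ψ) (fun _ => m)
      have e1 := congrArg g' h4
      rw [Polynomial.hom_eval₂, map_zero] at e1
      have e2 : g'.comp (Int.castRingHom Λ') = Int.castRingHom _ := RingHom.ext_int _ _
      have e3 : g' (MvPolynomial.X ⟨i, hiS⟩) = m := MvPolynomial.eval₂Hom_X' _ _ _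
      rw [e2, e3] at e1
      exact e1
    have h5 := hK Polynomial.X
    have h6 : (q.map (Int.castRingHom (ZMod p))) = 0 := by
      rw [← h5]
      have e1 : (Int.castRingHom (Polynomial (ZMod p))) =
        (Polynomial.C).comp (Int.castRingHom (ZMod p)) := RingHom.ext_int _ _
      rw [e1, ← Polynomial.eval₂_map, Polynomial.eval₂_C_X]
    exact (hqm.map (Int.castRingHom (ZMod p))).ne_zero h6
  have hcond : Cond c ρ S J := by
    refine ⟨?_, hSJ, ?_, ?_⟩
    · intro i
      cases hi : cls i with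
      | none => rw [hρnone i hi, hρnone i hi]
      | some l => rw [hρsome i l hi, hρsome _ l (hrep l)]
    · intro i hi i' hρi
      have hi' : cls i = none := (Finset.mem_filter.1 hi).2
      have h1 : cls i' = none := by
        rw [← hclsρ i', hρi, hclsρ i, hi']
      rw [hρnone i hi', hρnone i' h1] at hρi
      exact hρi
    · have h1 : (Finset.univ.filter fun i => ρ i = i) ⊆ Finset.univ.image rep ∪ J := by
        intro i hi
        have hi' : ρ i = i := (Finset.mem_filter.1 hi).2
        cases hc : cls i with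
        | none => exact Finset.mem_union_right _ (Finset.mem_filter.2 ⟨Finset.mem_univ _, hc⟩)
        | some l =>
          rw [hρsome i l hc] at hi'
          exact Finset.mem_union_left _ (Finset.mem_image.2 ⟨l, Finset.mem_univ _, hi'⟩)
      have h2 := Finset.card_le_card h1
      have h3 := Finset.card_union_le (Finset.univ.image rep) J
      have h4 : (Finset.univ.image rep).card ≤ r := by
        refine Finset.card_image_le.trans ?_
        simp
      omega
  obtain ⟨z, L, hno⟩ := hno ρ S J hcond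
  let g : Λ' →+* ZMod p := MvPolynomial.eval₂Hom ψ (fun s => ((z s : ℤ) : ZMod p))
  obtain ⟨V, hV, hres⟩ := exists_place f g (fun a ha => by
    have : a = 0 := hf (by rw [ha, map_zero])
    rw [this, map_zero])
  let κ := IsLocalRing.ResidueField V
  -- integers
  have hint : ∀ m : ℤ, g (m : Λ') = (m : ZMod p) := fun m => map_intCast g m
  have hresint : ∀ (a : Λ') (m : ℤ), g a = (m : ZMod p) →
      IsLocalRing.residue V ⟨f a, hV a⟩ = (m : κ) := by
    intro a m ham
    have e1 := (hres (a - (m : Λ'))).2 (by rw [map_sub, hint, ham, sub_self])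
    have e2 : (⟨f (a - (m : Λ')), hV _⟩ : V) = ⟨f a, hV a⟩ - (m : V) := by
      apply Subtype.ext
      show f (a - (m : Λ')) = _
      rw [map_sub, map_intCast]
      push_cast
      rfl
    rw [e2, map_sub, map_intCast, sub_eq_zero] at e1
    exact e1
  have hpκ : (p : κ) = 0 := by
    have e1 := hresint 0 p (by rw [map_zero]; push_cast; simp)
    have e2 : (⟨f 0, hV 0⟩ : V) = 0 := Subtype.ext (map_zero f)
    rw [e2, map_zero] at e1
    push_cast at e1
    exact e1.symm
  have hchar : CharP κ p := (CharP.charP_iff_prime_eq_zero hp.out).2 hpκ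
  have hexp : ExpChar κ p := ExpChar.prime hp.out
  have hpV : IsLocalRing.residue V (p : V) = 0 := by
    rw [map_natCast]
    exact hpκ
  -- the coefficients
  have hFV : ∀ a : Λ, algebraMap Λ ℂ a ∈ V := by
    intro a
    have e1 := hV (MvPolynomial.C a)
    have e2 : f (MvPolynomial.C a) = algebraMap Λ ℂ a := MvPolynomial.aeval_C _ _
    rw [← e2]
    exact e1
  have hFres : ∀ a : Λ, IsLocalRing.residue V ⟨algebraMap Λ ℂ a, hFV a⟩ =
      ZMod.castHom (dvd_refl p) κ (ψ a) := by
    intro a
    have e0 : (((ψ a).val : ℤ) : ZMod p) = ψ a := by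
      push_cast
      exact ZMod.natCast_zmod_val _
    have e1 := hresint (MvPolynomial.C a) ((ψ a).val : ℤ) (by
      rw [e0]
      exact MvPolynomial.eval₂Hom_C _ _ _)
    have e2 : (⟨f (MvPolynomial.C a), hV _⟩ : V) = ⟨algebraMap Λ ℂ a, hFV a⟩ :=
      Subtype.ext (MvPolynomial.aeval_C _ _)
    rw [e2] at e1
    rw [e1, ← e0, map_intCast]
    rw [e0]
  refine hno κ ?_
  refine grid_of_point p G _ (fun j e => ⟨((ψ (F j e)).val : ℤ), ?_⟩) ρ (S ∪ J) _
    (fun i => red V (some (x i))) (fun j => ?_) ?_ ?_ L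
  · have e0 : (((ψ (F j e)).val : ℤ) : ZMod p) = ψ (F j e) := by
      push_cast
      exact ZMod.natCast_zmod_val _
    conv_lhs => rw [← e0]
    rw [map_intCast]
  · have e1 := evp_red V (fun e => (⟨algebraMap Λ ℂ (F j e), hFV _⟩ : V)) (fun i => some (x i)) (by
      unfold evp
      simp only [num, den, one_pow, mul_one]
      exact hx j)
    simp only [hFres] at e1
    exact e1
  · intro i hi
    by_cases hiS : i ∈ S
    · have e1 := hresint (MvPolynomial.X ⟨i, hiS⟩) (z i) (MvPolynomial.eval₂Hom_X' _ _ _)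
      have e2 : f (MvPolynomial.X ⟨i, hiS⟩) = x i := MvPolynomial.aeval_X _ _
      have hxV : x i ∈ V := by
        rw [← e2]
        exact hV _
      have e3 : (⟨f (MvPolynomial.X ⟨i, hiS⟩), hV _⟩ : V) = ⟨x i, hxV⟩ := Subtype.ext e2
      rw [e3] at e1
      refine ⟨0, (z i : κ), ?_, ?_⟩
      · show fr p 0 (red V (some (x i))) = _
        rw [fr_zero, red_mem V hxV, e1]
      · rw [fixPoly, if_pos hiS, Polynomial.eval₂_sub, Polynomial.eval₂_X, Polynomial.eval₂_C]
        simp
    · have hiJ : i ∈ J := (Finset.mem_union.1 hi).resolve_left hiS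
      have hc : cls i = none := (Finset.mem_filter.1 hiJ).2
      rw [fixPoly, if_neg hiS]
      obtain ⟨ζ, w, a, b, c', d', k, e1, e2, e3, e4⟩ := hconst i hc
      obtain ⟨y, hy, hy0⟩ := root_red V hh e1
      obtain ⟨u, u', huu⟩ := feq_pow V p hpV k e2 e3
      refine ⟨u', iterateFrobenius κ p u y, ?_, ?_⟩
      · show fr p u' (red V (some (x i))) = _
        rw [e4, ← huu, hy]
        rfl
      · have f1 := congrArg (iterateFrobenius κ p u) hy0
        rw [Polynomial.hom_eval₂, map_zero] at f1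
        have f2 : (iterateFrobenius κ p u).comp (Int.castRingHom κ) = Int.castRingHom κ :=
          RingHom.ext_int _ _
        rw [f2] at f1
        exact f1
  · intro i hρi
    cases hc : cls i with
    | none => exact absurd (hρnone i hc) hρi
    | some l =>
      rw [hρsome i l hc]
      obtain ⟨τ, w, a, b, c', d', N, k, hN, hNM, h1, h2, h3, h4⟩ := hiso (rep l) i l (hrep l) hc
      obtain ⟨ζ, a₂, b₂, c₂, d₂, g1, g2, w', g3, g4⟩ := feq_mixed V p hpV N hN k h1 h2
      refine ⟨red V (some (jj ζ)), ?_, ?_⟩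
      · show Lk G (red V (some (x i))) (red V (some (jj ζ)))
        refine Lk.red V hGm (Or.inr ⟨_, _, rfl, rfl, ?_, ?_⟩)
        · rw [h4, ← g3]
          exact hG w' ζ d₂ (-b₂) (-c₂) a₂ N hN hNM (by linarith) (adj_rel g4)
        · rw [h4, ← g3]
          exact hG ζ w' a₂ b₂ c₂ d₂ N hN hNM g2 g4
      · show FEq p (red V (some (jj ζ))) (red V (some (x (rep l))))
        rw [h3]
        exact g1.symm p

end Pool.Agent.NH30.KF
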