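import Pool.Agent.NH30.KF.Point
import Pool.Agent.TH526.ZL.E

/-!
# Special subvarieties of level `N p ^ k` (helper30)
-/

set_option autoImplicit false

namespace Pool.Agent.NH30.KF

open H294ZP UpperHalfPlane Pool.Agent.W282.ZP

/-- A special subvariety of `Y(1)^n = ℂ^n` of dimension `r`, whose complexity away from `p` is bounded
in terms of `B` and `h`: a map `cls` from the coordinates onto `r` classes (`none` for constant
coordinates), an integral matrix of determinant `N p ^ k` with `N ≤ B` for every coordinate, and for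
every coordinate without class a constant, which is isogenous to a root of `h` by an isogeny of degree
a power of `p`. -/
structure SpecialVariety (p B : ℕ) (h : Polynomial ℤ) (n r : ℕ) where
  cls : Fin n → Option (Fin r)
  surj : ∀ l : Fin r, ∃ i, cls i = some l
  mat : Fin n → Matrix (Fin 2) (Fin 2) ℤ
  level : ∀ i, ∃ N k : ℕ, 0 < N ∧ N ≤ B ∧ (mat i).det = N * (p : ℤ) ^ k
  const : Fin n → ℂ
  allowed : ∀ i, cls i = none → ∃ (ζ w : ℍ) (g : Matrix (Fin 2) (Fin 2) ℤ) (k : ℕ),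
    h.eval₂ (Int.castRingHom ℂ) (jj ζ) = 0 ∧ g.det = (p : ℤ) ^ k ∧
    (w : ℂ) * (g 1 0 * ζ + g 1 1) = g 0 0 * ζ + g 0 1 ∧ const i = jj w

/-- The points of the special subvariety: the constant coordinates are the given constants, and the
coordinates of class `l` are `j (g_i z_l)`, with a free parameter `z_l` in the upper half plane. -/
def SpecialVariety.locus {p B : ℕ} {h : Polynomial ℤ} {n r : ℕ} (Z : SpecialVariety p B h n r) :
    Set (Fin n → ℂ) :=
  {x | ∃ z : Fin r → ℍ, ∀ i, (Z.cls i = none → x i = Z.const i) ∧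
    ∀ l, Z.cls i = some l → ∃ w : ℍ,
      (w : ℂ) * (Z.mat i 1 0 * z l + Z.mat i 1 1) = Z.mat i 0 0 * z l + Z.mat i 0 1 ∧
      x i = jj w}

/-- `X` has no atypical intersections with the special subvarieties `Z` in `SpecialVariety p B h`
(`c` is the expected codimension of `X`): every irreducible closed subset `A` of `X ∩ Z` has
dimension at most `dim Z - c`, and every point of `X ∩ Z` has transcendence degree at most
`dim Z - c` over `Λ`. -/
def NoAtypical (p B : ℕ) (h : Polynomial ℤ) (Λ : Subring ℂ) {n : ℕ} (c : ℕ)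
    (X : Set (Fin n → ℂ)) : Prop :=
  ∀ (r : ℕ) (Z : SpecialVariety p B h n r),
    (∀ A ⊆ X ∩ Z.locus, zcl A ⊆ A → (idealOf A).IsPrime →
      zdim A + (c : Cardinal) ≤ (r : Cardinal)) ∧
    ∀ x ∈ X ∩ Z.locus, ∀ S : Finset (Fin n), AlgebraicIndependent Λ (fun i : S => x i) →
      S.card + c ≤ r

/-- The common zeros of the polynomials `∑_e (F_j)_e x ^ e`, of degree at most `d` in each variable. -/
def zeroSet {n d : ℕ} {ι : Type} (F : ι → (Fin n → Fin (d + 1)) → ℂ) : Set (Fin n → ℂ) :=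
  {x | ∀ j, ∑ e : Fin n → Fin (d + 1), F j e * ∏ i, x i ^ (e i : ℕ) = 0}

theorem points {Λ : Type} [CommRing Λ] [Algebra Λ ℂ] {p B : ℕ} [Fact p.Prime] (ψ : Λ →+* ZMod p)
    {n c d r : ℕ} {ι : Type} {G : Polynomial (Polynomial ℤ)} (hGm : G.Monic)
    (hG : ∀ (τ w : ℍ) (a b c d : ℤ) (N : ℕ), 0 < N → N ≤ B * B → a * d - b * c = N →
      (w : ℂ) * (c * τ + d) = a * τ + b → ev2 G (jj τ) (jj w) = 0)
    {h : Polynomial ℤ} (hh : h.Monic)
    (F : ι → (Fin n → Fin (d + 1)) → Λ)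
    (hno : ∀ (ρ : Fin n → Fin n) (S J : Finset (Fin n)), Cond c ρ S J →
      ∃ (z : Fin n → ℤ) (L : ℕ), ∀ (k : Type) [Field k] [CharP k p],
      ¬ HasGrid k G (fun j e => ZMod.castHom (dvd_refl p) k (ψ (F j e))) ρ (S ∪ J)
        (fixPoly z h S) L) (Z : SpecialVariety p B h n r) (x : Fin n → ℂ)
    (hx : ∀ j, ∑ e : Fin n → Fin (d + 1), algebraMap Λ ℂ (F j e) * ∏ i, x i ^ (e i : ℕ) = 0)
    (hxZ : x ∈ Z.locus) (S : Finset (Fin n)) (hS : AlgebraicIndependent Λ (fun i : S => x i)) :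
    S.card + c ≤ r := by
  have hp : p.Prime := Fact.out
  have hdet : ∀ i, 0 < (Z.mat i).det := by
    intro i
    obtain ⟨N, k, hN, -, hk⟩ := Z.level i
    rw [hk]
    exact mul_pos (by exact_mod_cast hN) (pow_pos (by exact_mod_cast hp.pos) k)
  obtain ⟨z, hz⟩ := hxZ
  refine point_bound ψ hGm hG hh F hno Z.cls Z.surj x hx ?_ ?_ S hS
  · intro i hi
    obtain ⟨ζ, w, g, k, e1, e2, e3, e4⟩ := Z.allowed i hi
    refine ⟨ζ, w, g 0 0, g 0 1, g 1 0, g 1 1, k, e1, ?_, e3, ?_⟩
    · rw [← e2, Matrix.det_fin_two]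
    · rw [(hz i).1 hi, e4]
  · intro i i' l hi hi'
    obtain ⟨w, hw, hxw⟩ := (hz i).2 l hi
    obtain ⟨w', hw', hxw'⟩ := (hz i').2 l hi'
    obtain ⟨a, b, c', d', e1, e2⟩ := isogeny_rel (hdet i) hw hw'
    obtain ⟨N, k, hN, hNB, hk⟩ := Z.level i
    obtain ⟨N', k', hN', hNB', hk'⟩ := Z.level i'
    refine ⟨w, w', a, b, c', d', N * N', k + k', Nat.mul_pos hN hN', Nat.mul_le_mul hNB hNB', ?_, e2,
      hxw, hxw'⟩
    rw [e1, hk, hk']
    push_cast
    ring

theorem exists_field {β : Type} [Countable β] (y : β → ℂ) :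
    ∃ K : Subfield ℂ, Countable K ∧ ∀ a ∈ Subring.closure (Set.range y), a ∈ K := by
  refine ⟨Subfield.closure (Set.range y), ?_, ?_⟩
  · rw [← Cardinal.mk_le_aleph0_iff]
    refine (Subfield.cardinalMk_closure_le_max _).trans (max_le ?_ le_rfl)
    exact Cardinal.mk_le_aleph0_iff.2 (Set.countable_range _)
  · intro a ha
    have h1 : Subring.closure (Set.range y) ≤ (Subfield.closure (Set.range y)).toSubring := by
      rw [Subring.closure_le]
      exact Subfield.subset_closure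
    exact h1 ha

theorem indep_down (Λ : Subring ℂ) (K : Subfield ℂ) (h : ∀ a ∈ Λ, a ∈ K) {σ : Type} (x : σ → ℂ)
    (hx : AlgebraicIndependent K x) : AlgebraicIndependent Λ x := by
  let fK : Λ →+* K := (Λ.subtype).codRestrict K (fun a => h a a.2)
  let _ : Algebra Λ K := fK.toAlgebra
  have hst : IsScalarTower Λ K ℂ := IsScalarTower.of_algebraMap_eq fun _ => rfl
  have hfK : Function.Injective (algebraMap Λ K) := fun a b h =>
    Subtype.ext (congrArg (fun z : K => (z : ℂ)) h)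
  exact hx.restrictScalars hfK

/-- the criterion over a ring with a place of degree one -/
theorem main {Λ : Subring ℂ} {p : ℕ} (hp : p.Prime) (ψ : Λ →+* ZMod p) {n c d B : ℕ} {ι : Type}
    [Countable ι] {G : Polynomial (Polynomial ℤ)} (hGm : G.Monic)
    (hG : ∀ (τ w : ℍ) (a b c d : ℤ) (N : ℕ), 0 < N → N ≤ B * B → a * d - b * c = N →
      (w : ℂ) * (c * τ + d) = a * τ + b → ev2 G (jj τ) (jj w) = 0)
    {h : Polynomial ℤ} (hh : h.Monic) (F : ι → (Fin n → Fin (d + 1)) → Λ)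
    (hno : ∀ (ρ : Fin n → Fin n) (S J : Finset (Fin n)), Cond c ρ S J →
      ∃ (z : Fin n → ℤ) (L : ℕ), ∀ (k : Type) [Field k] [CharP k p],
      ¬ HasGrid k G (fun j e => ZMod.castHom (dvd_refl p) k (ψ (F j e))) ρ (S ∪ J)
        (fixPoly z h S) L) :
    NoAtypical p B h Λ c (zeroSet fun j e => (F j e : ℂ)) := by
  have : Fact p.Prime := ⟨hp⟩
  intro r Z
  refine ⟨?_, fun x hx S hS => points ψ hGm hG hh F hno Z x hx.1 hx.2 S hS⟩
  intro A hA hcl hprime
  let y : ι × (Fin n → Fin (d + 1)) → ℂ := fun v => (F v.1 v.2 : ℂ)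
  have hle : Subring.closure (Set.range y) ≤ Λ := by
    rw [Subring.closure_le]
    rintro _ ⟨v, rfl⟩
    exact (F v.1 v.2).2
  obtain ⟨K, hK, hΛK⟩ := exists_field y
  obtain ⟨x, hxA, T, hT, hdim⟩ := Pool.Agent.W466.ZC.generic_dim K A hprime hcl
  let F' : ι → (Fin n → Fin (d + 1)) → Subring.closure (Set.range y) := fun j e =>
    ⟨F j e, Subring.subset_closure ⟨(j, e), rfl⟩⟩
  have h2 := points (ψ.comp (Subring.inclusion hle)) hGm hG hh F' hno Z x (hA hxA).1 (hA hxA).2 T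
    (indep_down _ K hΛK _ hT)
  calc zdim A + (c : Cardinal) ≤ (T.card : Cardinal) + (c : Cardinal) := by gcongr
    _ = ((T.card + c : ℕ) : Cardinal) := by push_cast; rfl
    _ ≤ (r : Cardinal) := by exact_mod_cast h2

/-- the criterion for systems with integral coefficients -/
theorem mainZ {n c d B : ℕ} {ι : Type} [Countable ι] {G : Polynomial (Polynomial ℤ)} (hGm : G.Monic)
    (hG : ∀ (τ w : ℍ) (a b c d : ℤ) (N : ℕ), 0 < N → N ≤ B * B → a * d - b * c = N →
      (w : ℂ) * (c * τ + d) = a * τ + b → ev2 G (jj τ) (jj w) = 0)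
    {h : Polynomial ℤ} (hh : h.Monic)
    (F : ι → (Fin n → Fin (d + 1)) → ℤ) {p : ℕ} (hp : p.Prime)
    (hno : ∀ (ρ : Fin n → Fin n) (S J : Finset (Fin n)), Cond c ρ S J →
      ∃ (z : Fin n → ℤ) (L : ℕ), ∀ (k : Type) [Field k] [CharP k p],
        ¬ HasGrid k G (fun j e => ((F j e : ℤ) : k)) ρ (S ∪ J) (fixPoly z h S) L)
    (Λ : Subring ℂ) : NoAtypical p B h Λ c (zeroSet fun j e => ((F j e : ℤ) : ℂ)) := by
  classical
  have : Fact p.Prime := ⟨hp⟩
  let Λ₀ : Subring ℂ := (Int.castRingHom ℂ).range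
  let e : ℤ ≃+* Λ₀ := RingEquiv.ofBijective (Int.castRingHom ℂ).rangeRestrict
    ⟨fun a b hab => by
      have := congrArg Subtype.val hab
      exact Int.cast_injective (α := ℂ) this, RingHom.rangeRestrict_surjective _⟩
  let ψ : Λ₀ →+* ZMod p := (Int.castRingHom (ZMod p)).comp (e.symm : Λ₀ →+* ℤ)
  have h1 := main hp ψ (c := c) hGm hG hh (fun j i => e (F j i)) (by
    intro ρ S J hc
    obtain ⟨z, L, hzL⟩ := hno ρ S J hc
    refine ⟨z, L, fun k _ _ => ?_⟩
    have e1 : (fun j i => ZMod.castHom (dvd_refl p) k (ψ (e (F j i)))) =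
        fun j i => ((F j i : ℤ) : k) := by
      funext j i
      show ZMod.castHom (dvd_refl p) k (Int.castRingHom (ZMod p) (e.symm (e (F j i)))) = _
      rw [e.symm_apply_apply]
      simp
    rw [e1]
    exact hzL k)
  have h2 : (fun j i => ((e (F j i) : Λ₀) : ℂ)) = fun j i => ((F j i : ℤ) : ℂ) := by
    funext j i
    rfl
  rw [h2] at h1
  intro r Z
  refine ⟨(h1 r Z).1, fun x hx S hS => (h1 r Z).2 x hx S ?_⟩
  have hS1 : AlgebraicIndependent ℤ (fun i : S => x i) := by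
    refine hS.restrictScalars (R := ℤ) ?_
    intro a b hab
    have := congrArg (algebraMap Λ ℂ) hab
    simpa using this
  rw [algebraicIndependent_iff_injective_aeval] at hS1 ⊢
  intro P Q hPQ
  have hmap : ∀ P : MvPolynomial S Λ₀, MvPolynomial.aeval (fun i : S => x i) P =
      MvPolynomial.aeval (fun i : S => x i)
        (MvPolynomial.map ((e.symm : Λ₀ →+* ℤ)) P) := by
    intro P
    rw [MvPolynomial.aeval_def, MvPolynomial.aeval_def, MvPolynomial.eval₂_map]
    congr 1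
    ext a
    obtain ⟨m, rfl⟩ := e.surjective a
    show algebraMap Λ₀ ℂ (e m) = algebraMap ℤ ℂ (e.symm (e m))
    rw [e.symm_apply_apply]
    rfl
  rw [hmap P, hmap Q] at hPQ
  have h3 := hS1 hPQ
  exact MvPolynomial.map_injective _ e.symm.injective h3

end Pool.Agent.NH30.KF
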